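import Mathlib

set_option autoImplicit false

open MeasureTheory Topology
open scoped ComplexConjugate

namespace Pool.Agent.Helper53_Dir

/-- The infinite dimensional torus. -/
abbrev X : Type := ℕ → UnitAddCircle

/-- `f` depends only on the coordinates `< k`. -/
def Dep {α : Type*} (k : ℕ) (f : X → α) : Prop :=
  ∀ x y : X, (∀ i, i < k → x i = y i) → f x = f y

theorem Dep.mono {α : Type*} {k l : ℕ} {f : X → α} (h : Dep k f) (hkl : k ≤ l) : Dep l f :=
  fun x y hxy => h x y fun i hi => hxy i (lt_of_lt_of_le hi hkl)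

theorem Dep.update {α : Type*} {k l : ℕ} {f : X → α} (h : Dep k f) (hkl : k ≤ l) (x : X)
    (s : UnitAddCircle) : f (Function.update x l s) = f x :=
  h _ _ fun i hi => Function.update_of_ne (by omega) _ _

/-- The exponential `e(n x_k)`. -/
noncomputable def zn (k : ℕ) (n : ℤ) : C(X, ℂ) :=
  (fourier n).comp ⟨fun x : X => x k, continuous_apply k⟩

theorem zn_apply (k : ℕ) (n : ℤ) (x : X) : zn k n x = fourier n (x k) := rfl

theorem dep_zn (k : ℕ) (n : ℤ) : Dep (k + 1) (zn k n) := by
  intro x y h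
  rw [zn_apply, zn_apply, h k (Nat.lt_succ_self k)]

theorem norm_zn_apply (k : ℕ) (n : ℤ) (x : X) : ‖zn k n x‖ = 1 := by
  rw [zn_apply, fourier_apply]
  exact Circle.norm_coe _

/-- generators of level `k`. -/
def gens (k : ℕ) : Set C(X, ℂ) := {g | ∃ u : C(X, ℂ), Dep k u ∧ ∃ n : ℕ, g = u * zn k (n + 1)}

/-- The functions of level `k`, analytic in the `k`-th variable with mean zero. -/
noncomputable def Nk (k : ℕ) : Submodule ℂ C(X, ℂ) := Submodule.span ℂ (gens k)

/-- All levels together. -/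
noncomputable def NN : Submodule ℂ C(X, ℂ) := Submodule.span ℂ (⋃ k, gens k)

theorem Nk_le_NN (k : ℕ) : Nk k ≤ NN := Submodule.span_mono (Set.subset_iUnion _ _)

theorem dep_of_mem_Nk {k : ℕ} {f : C(X, ℂ)} (hf : f ∈ Nk k) : Dep (k + 1) f := by
  refine Submodule.span_induction (p := fun (f : C(X, ℂ)) _ => Dep (k + 1) f) ?_ ?_ ?_ ?_ hf
  · rintro g ⟨u, hu, n, rfl⟩ x y h
    have h1 := (hu.mono (Nat.le_succ k)) x y h
    have h2 := dep_zn k ((n : ℤ) + 1) x y h
    simp only [ContinuousMap.mul_apply, h1, h2]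
  · intro x y _; rfl
  · intro f g _ _ hf hg x y h
    simp only [ContinuousMap.add_apply, hf x y h, hg x y h]
  · intro c f _ hf x y h
    simp only [ContinuousMap.smul_apply, hf x y h]

theorem mul_mem_Nk {k : ℕ} {u f : C(X, ℂ)} (hu : Dep k u) (hf : f ∈ Nk k) : u * f ∈ Nk k := by
  refine Submodule.span_induction (p := fun f _ => u * f ∈ Nk k) ?_ ?_ ?_ ?_ hf
  · rintro g ⟨v, hv, n, rfl⟩
    refine Submodule.subset_span ⟨u * v, ?_, n, (mul_assoc _ _ _).symm⟩
    intro x y h
    simp only [ContinuousMap.mul_apply, hu x y h, hv x y h]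
  · simp
  · intro f g _ _ hf hg
    rw [mul_add]; exact add_mem hf hg
  · intro c f _ hf
    rw [mul_smul_comm]; exact Submodule.smul_mem _ _ hf

theorem zn_mul_zn (k : ℕ) (m n : ℤ) : zn k m * zn k n = zn k (m + n) := by
  ext x
  simp only [ContinuousMap.mul_apply, zn_apply, fourier_add]

theorem gens_mul {k l : ℕ} (hkl : k ≤ l) {f g : C(X, ℂ)} (hf : f ∈ gens k) (hg : g ∈ gens l) :
    f * g ∈ gens l := by
  obtain ⟨u, hu, m, rfl⟩ := hf
  obtain ⟨v, hv, n, rfl⟩ := hg
  rcases hkl.eq_or_lt with rfl | hlt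
  · refine ⟨u * v, ?_, m + 1 + n, ?_⟩
    · intro x y h
      simp only [ContinuousMap.mul_apply, hu x y h, hv x y h]
    · rw [mul_mul_mul_comm, zn_mul_zn]
      congr 2
  · refine ⟨u * zn k (m + 1) * v, ?_, n, ?_⟩
    · intro x y h
      have h1 := (hu.mono hkl) x y h
      have h2 := ((dep_zn k ((m : ℤ) + 1)).mono hlt) x y h
      simp only [ContinuousMap.mul_apply, h1, hv x y h, h2]
    · ring

theorem NN_mul_NN : NN * NN ≤ NN := by
  rw [NN, Submodule.span_mul_span]
  refine Submodule.span_mono ?_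
  rintro _ ⟨f, hf, g, hg, rfl⟩
  obtain ⟨k, hf⟩ := Set.mem_iUnion.1 hf
  obtain ⟨l, hg⟩ := Set.mem_iUnion.1 hg
  rcases le_total k l with h | h
  · exact Set.mem_iUnion.2 ⟨l, gens_mul h hf hg⟩
  · refine Set.mem_iUnion.2 ⟨k, ?_⟩
    simp only [mul_comm f g]
    exact gens_mul h hg hf

/-- The dense subalgebra `ℂ ⊕ NN`. -/
noncomputable def A0 : Subalgebra ℂ C(X, ℂ) :=
  Submodule.toSubalgebra (1 ⊔ NN) (Submodule.mem_sup_left (Submodule.mem_one.2 ⟨1, map_one _⟩)) (by
    intro f g hf hg
    have h : (1 ⊔ NN) * (1 ⊔ NN) ≤ (1 ⊔ NN : Submodule ℂ C(X, ℂ)) := by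
      rw [Submodule.mul_sup, Submodule.mul_one, Submodule.sup_mul, one_mul]
      exact sup_le le_rfl (sup_le le_sup_right (NN_mul_NN.trans le_sup_right))
    exact h (Submodule.mul_mem_mul hf hg))

theorem mem_A0 {f : C(X, ℂ)} : f ∈ A0 ↔ ∃ c : ℂ, ∃ g ∈ NN, f = algebraMap ℂ _ c + g := by
  show f ∈ (1 ⊔ NN : Submodule ℂ C(X, ℂ)) ↔ _
  rw [Submodule.mem_sup]
  constructor
  · rintro ⟨a, ha, g, hg, rfl⟩
    obtain ⟨c, rfl⟩ := Submodule.mem_one.1 ha
    exact ⟨c, g, hg, rfl⟩
  · rintro ⟨c, g, hg, rfl⟩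
    exact ⟨_, Submodule.mem_one.2 ⟨c, rfl⟩, g, hg, rfl⟩

/-- The algebra on the infinite torus. -/
noncomputable def A : Subalgebra ℂ C(X, ℂ) := A0.topologicalClosure

theorem isClosed_A : IsClosed (A : Set C(X, ℂ)) := Subalgebra.isClosed_topologicalClosure _

theorem A0_le_A : A0 ≤ A := Subalgebra.le_topologicalClosure _

theorem mem_A_of_Nk {k : ℕ} {f : C(X, ℂ)} (hf : f ∈ Nk k) : f ∈ A :=
  A0_le_A (mem_A0.2 ⟨0, f, Nk_le_NN k hf, by simp⟩)

/-- The Haar probability measure on the torus. -/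
noncomputable def haar : Measure X := Measure.addHaarMeasure ⊤

noncomputable instance : IsProbabilityMeasure haar :=
  ⟨by
    have := Measure.addHaarMeasure_self (K₀ := (⊤ : TopologicalSpace.PositiveCompacts X))
    simpa [haar] using this⟩

noncomputable instance : Measure.IsAddHaarMeasure haar := by
  unfold haar; infer_instance

theorem integral_gens {k : ℕ} {f : C(X, ℂ)} (hf : f ∈ gens k) : ∫ x, f x ∂haar = 0 := by
  obtain ⟨u, hu, n, rfl⟩ := hf
  have hn : ((n : ℤ) + 1) ≠ 0 := by omega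
  set t : UnitAddCircle := (((1 : ℝ) / 2 / ((n : ℤ) + 1 : ℤ) : ℝ) : UnitAddCircle) with ht
  have h1 : ∫ x, (u * zn k (n + 1)) x ∂haar =
      ∫ x, (u * zn k (n + 1)) (Pi.single k t + x) ∂haar :=
    (integral_add_left_eq_self (μ := haar) (fun x => (u * zn k (n + 1)) x) _).symm
  have h2 : ∀ x : X, (u * zn k (n + 1)) (Pi.single k t + x) = -((u * zn k (n + 1)) x) := by
    intro x
    have h3 : u (Pi.single k t + x) = u x := by
      refine hu _ _ fun i hi => ?_
      rw [Pi.add_apply, Pi.single_eq_of_ne (by omega), zero_add]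
    have h4 : zn k (n + 1) (Pi.single k t + x) = -zn k (n + 1) x := by
      rw [zn_apply, zn_apply, Pi.add_apply, Pi.single_eq_same, add_comm t]
      exact fourier_add_half_inv_index hn one_pos (x k)
    rw [ContinuousMap.mul_apply, ContinuousMap.mul_apply, h3, h4, mul_neg]
  simp_rw [h2] at h1
  rw [integral_neg] at h1
  exact self_eq_neg.1 h1

theorem integrable_cont (f : C(X, ℂ)) : Integrable (fun x => f x) haar :=
  f.continuous.integrable_of_hasCompactSupport (HasCompactSupport.of_compactSpace _)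

theorem integral_NN {f : C(X, ℂ)} (hf : f ∈ NN) : ∫ x, f x ∂haar = 0 := by
  refine Submodule.span_induction (p := fun f _ => ∫ x, f x ∂haar = 0) ?_ ?_ ?_ ?_ hf
  · intro g hg
    obtain ⟨k, hg⟩ := Set.mem_iUnion.1 hg
    exact integral_gens hg
  · simp
  · intro f g _ _ hf hg
    simp only [ContinuousMap.add_apply]
    rw [integral_add (integrable_cont f) (integrable_cont g), hf, hg, add_zero]
  · intro c f _ hf
    simp only [ContinuousMap.smul_apply]
    rw [integral_smul, hf, smul_zero]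

theorem continuous_integral : Continuous fun f : C(X, ℂ) => ∫ x, f x ∂haar := by
  have h : ∀ f : C(X, ℂ), ∫ x, f x ∂haar = ∫ x, f x ∂haar := fun _ => rfl
  refine (LipschitzWith.of_dist_le_mul (K := 1) fun f g => ?_).continuous
  rw [dist_eq_norm, ← integral_sub (integrable_cont f) (integrable_cont g)]
  refine (norm_integral_le_of_norm_le_const (C := dist f g)
    (Filter.Eventually.of_forall fun x => ?_)).trans ?_
  · rw [← dist_eq_norm]; exact ContinuousMap.dist_apply_le_dist x
  · simp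

theorem algMap_apply (c : ℂ) (x : X) : (algebraMap ℂ C(X, ℂ) c) x = c := rfl

theorem integral_ofReal' (g : X → ℝ) :
    ∫ x, ((g x : ℝ) : ℂ) ∂haar = ((∫ x, g x ∂haar : ℝ) : ℂ) := integral_ofReal

/-- A real valued element of `A` is constant. -/
theorem const_of_real {f : C(X, ℂ)} (hf : f ∈ A) (hre : ∀ x, (f x).im = 0) (x y : X) :
    f x = f y := by
  -- the closed property
  have hcl : IsClosed {f : C(X, ℂ) | ∫ x, (f * f) x ∂haar = (∫ x, f x ∂haar) ^ 2} := by
    refine isClosed_eq ?_ ?_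
    · exact continuous_integral.comp (continuous_id.mul continuous_id)
    · exact continuous_integral.pow 2
  have h0 : (A0 : Set C(X, ℂ)) ⊆ {f : C(X, ℂ) | ∫ x, (f * f) x ∂haar = (∫ x, f x ∂haar) ^ 2} := by
    intro f hf
    obtain ⟨c, g, hg, rfl⟩ := mem_A0.1 hf
    have hgg : ∫ x, (g * g) x ∂haar = 0 := integral_NN (NN_mul_NN (Submodule.mul_mem_mul hg hg))
    have hg0 := integral_NN hg
    have e1 : ∫ x, (algebraMap ℂ C(X, ℂ) c + g) x ∂haar = c := by
      simp only [ContinuousMap.add_apply]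
      rw [integral_add (integrable_cont _) (integrable_cont g), hg0, add_zero]
      simp
    have e2 : (algebraMap ℂ C(X, ℂ) c + g) * (algebraMap ℂ C(X, ℂ) c + g) =
        algebraMap ℂ C(X, ℂ) (c ^ 2) + ((2 * c) • g + g * g) := by
      ext x
      simp only [ContinuousMap.mul_apply, ContinuousMap.add_apply, ContinuousMap.smul_apply,
        algMap_apply, smul_eq_mul]
      ring
    show ∫ x, ((algebraMap ℂ C(X, ℂ) c + g) * (algebraMap ℂ C(X, ℂ) c + g)) x ∂haar = _
    rw [e1, e2]
    have e3 : ∫ x, ((2 * c) • g + g * g) x ∂haar = 0 :=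
      integral_NN (add_mem (Submodule.smul_mem _ _ hg)
        (NN_mul_NN (Submodule.mul_mem_mul hg hg)))
    simp only [ContinuousMap.add_apply (algebraMap ℂ C(X, ℂ) (c ^ 2))]
    rw [integral_add (integrable_cont _) (integrable_cont _), e3]
    simp
  have hA : f ∈ {f : C(X, ℂ) | ∫ x, (f * f) x ∂haar = (∫ x, f x ∂haar) ^ 2} := by
    exact closure_minimal h0 hcl hf
  -- real version
  set r : X → ℝ := fun x => (f x).re with hr
  have hfr : ∀ x, f x = (r x : ℂ) := fun x => by
    apply Complex.ext <;> simp [hr, hre x]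
  have hrc : Continuous r := Complex.continuous_re.comp f.continuous
  have i1 : ∫ x, f x ∂haar = ((∫ x, r x ∂haar : ℝ) : ℂ) := by
    rw [← integral_ofReal']
    exact integral_congr_ae (Filter.Eventually.of_forall hfr)
  have i2 : ∫ x, (f * f) x ∂haar = ((∫ x, r x * r x ∂haar : ℝ) : ℂ) := by
    rw [← integral_ofReal']
    refine integral_congr_ae (Filter.Eventually.of_forall fun x => ?_)
    simp only [ContinuousMap.mul_apply, hfr x]
    push_cast; rfl
  have hA' : ∫ x, (f * f) x ∂haar = (∫ x, f x ∂haar) ^ 2 := hA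
  rw [i1, i2] at hA'
  have i3 : ∫ x, r x * r x ∂haar = (∫ x, r x ∂haar) ^ 2 := by exact_mod_cast hA'
  set m : ℝ := ∫ x, r x ∂haar with hm
  have hint : ∀ g : X → ℝ, Continuous g → Integrable g haar := fun g hg =>
    hg.integrable_of_hasCompactSupport (HasCompactSupport.of_compactSpace _)
  have i4 : ∫ x, (r x - m) ^ 2 ∂haar = 0 := by
    have e : ∀ x, (r x - m) ^ 2 = r x * r x - 2 * m * r x + m ^ 2 := fun x => by ring
    simp_rw [e]
    have j1 : Integrable (fun x => r x * r x) haar := hint _ (hrc.mul hrc)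
    have j2 : Integrable (fun x => 2 * m * r x) haar := hint _ (continuous_const.mul hrc)
    have j3 : Integrable (fun x => r x * r x - 2 * m * r x) haar := j1.sub j2
    have j4 : Integrable (fun _ : X => m ^ 2) haar := hint _ continuous_const
    rw [integral_add j3 j4, integral_sub j1 j2, i3, integral_const_mul, ← hm]
    simp
    ring
  have hc : Continuous fun x => (r x - m) ^ 2 := (hrc.sub continuous_const).pow 2
  have h5 : (fun x => (r x - m) ^ 2) = 0 := by
    have := (integral_eq_zero_iff_of_nonneg (fun x => sq_nonneg (r x - m)) (hint _ hc)).1 i4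
    exact (Continuous.ae_eq_iff_eq haar hc continuous_zero).1 this
  have h6 : ∀ x, r x = m := fun x => by
    have := congrFun h5 x
    have := pow_eq_zero_iff (two_ne_zero) |>.1 this
    linarith
  rw [hfr x, hfr y, h6 x, h6 y]

end Pool.Agent.Helper53_Dir
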