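import Pool.Agent.Helper53_Dir.Basic

set_option autoImplicit false

open MeasureTheory Topology
open scoped ComplexConjugate

namespace Pool.Agent.Helper53_Dir

theorem continuous_upd (k : ℕ) :
    Continuous fun p : X × UnitAddCircle => (Function.update p.1 k p.2 : X) :=
  continuous_fst.update k continuous_snd

/-- The average over the `k`-th coordinate. -/
noncomputable def Ek (k : ℕ) (f : C(X, ℂ)) : C(X, ℂ) where
  toFun x := ∫ s : UnitAddCircle, f (Function.update x k s)
  continuous_toFun := by
    have h := continuous_parametric_integral_of_continuous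
      (μ := (volume : Measure UnitAddCircle))
      (f := fun (x : X) (s : UnitAddCircle) => f (Function.update x k s))
      (f.continuous.comp (continuous_upd k)) isCompact_univ
    simpa only [Measure.restrict_univ] using h

theorem Ek_apply (k : ℕ) (f : C(X, ℂ)) (x : X) :
    Ek k f x = ∫ s : UnitAddCircle, f (Function.update x k s) := rfl

theorem Ek_dep {k : ℕ} {f : C(X, ℂ)} (hf : Dep (k + 1) f) : Dep k (Ek k f) := by
  intro x y h
  rw [Ek_apply, Ek_apply]
  congr 1
  funext s
  refine hf _ _ fun i hi => ?_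
  by_cases hik : i = k
  · subst hik; simp
  · rw [Function.update_of_ne hik, Function.update_of_ne hik]
    exact h i (by omega)

theorem intble (g : UnitAddCircle → ℂ) (hg : Continuous g) :
    Integrable g (volume : Measure UnitAddCircle) :=
  hg.integrable_of_hasCompactSupport (HasCompactSupport.of_compactSpace _)

theorem cont_upd_fun (k : ℕ) (f : C(X, ℂ)) (x : X) :
    Continuous fun s : UnitAddCircle => f (Function.update x k s) :=
  f.continuous.comp ((continuous_upd k).comp (Continuous.prodMk_right x))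

theorem vol_univ : (volume : Measure UnitAddCircle).real Set.univ = 1 := by
  rw [Measure.real, UnitAddCircle.measure_univ]; rfl

theorem int_const (c : ℂ) : ∫ _ : UnitAddCircle, c = c := by
  rw [integral_const, vol_univ, one_smul]

theorem intble_prod (P : C(X × UnitAddCircle, ℂ)) (x : X) :
    Integrable (fun s => P (x, s)) (volume : Measure UnitAddCircle) :=
  intble _ (P.continuous.comp (Continuous.prodMk_right x))

theorem norm_Ek_le {k : ℕ} {f : C(X, ℂ)} {C : ℝ} {x : X}
    (h : ∀ s, ‖f (Function.update x k s)‖ ≤ C) : ‖Ek k f x‖ ≤ C := by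
  rw [Ek_apply]
  refine (norm_integral_le_of_norm_le_const (Filter.Eventually.of_forall h)).trans ?_
  rw [vol_univ, mul_one]

theorem Ek_sub (k : ℕ) (f g : C(X, ℂ)) : Ek k (f - g) = Ek k f - Ek k g := by
  ext x
  rw [ContinuousMap.sub_apply, Ek_apply, Ek_apply, Ek_apply,
    ← integral_sub (intble _ (cont_upd_fun k f x)) (intble _ (cont_upd_fun k g x))]
  rfl

/-- multiplication by a function of the earlier coordinates. -/
theorem Ek_mul {k : ℕ} {u : C(X, ℂ)} (hu : Dep k u) (f : C(X, ℂ)) :
    Ek k (u * f) = u * Ek k f := by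
  ext x
  rw [ContinuousMap.mul_apply, Ek_apply, Ek_apply, ← integral_const_mul]
  congr 1
  funext s
  rw [ContinuousMap.mul_apply, hu.update le_rfl]

theorem Ek_of_dep {k : ℕ} {u : C(X, ℂ)} (hu : Dep k u) : Ek k u = u := by
  ext x
  rw [Ek_apply]
  simp_rw [hu.update le_rfl]
  exact int_const _

/-- truncation -/
def trunc (k : ℕ) (x : X) : X := fun i => if i < k then x i else 0

theorem continuous_trunc (k : ℕ) : Continuous (trunc k) := by
  refine continuous_pi fun i => ?_
  unfold trunc
  by_cases h : i < k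
  · simp only [h, if_true]; exact continuous_apply i
  · simp only [h, if_false]; exact continuous_const

theorem dep_comp_trunc {α : Type*} (k : ℕ) (f : X → α) : Dep k (fun x => f (trunc k x)) := by
  intro x y h
  have : trunc k x = trunc k y := by
    funext i
    unfold trunc
    by_cases hi : i < k
    · simp only [hi, if_true]; exact h i hi
    · simp only [hi, if_false]
  simp only [this]

theorem update_trunc {α : Type*} {k : ℕ} {f : X → α} (hf : Dep (k + 1) f) (x : X) :
    f (Function.update (trunc k x) k (x k)) = f x := by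
  refine hf _ _ fun i hi => ?_
  by_cases hik : i = k
  · subst hik; simp
  · rw [Function.update_of_ne hik]
    unfold trunc
    simp only [show i < k by omega, if_true]

/-- the elementary products on `X × 𝕋` -/
noncomputable def prodM : Submonoid C(X × UnitAddCircle, ℂ) where
  carrier := {P | ∃ (u : C(X, ℂ)) (n : ℤ), P = (u.comp ⟨Prod.fst, continuous_fst⟩) *
    ((fourier n : C(UnitAddCircle, ℂ)).comp ⟨Prod.snd, continuous_snd⟩)}
  one_mem' := ⟨1, 0, by ext p; simp⟩
  mul_mem' := by
    rintro _ _ ⟨u, n, rfl⟩ ⟨v, m, rfl⟩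
    refine ⟨u * v, n + m, ?_⟩
    ext p
    simp only [ContinuousMap.mul_apply, ContinuousMap.comp_apply, ContinuousMap.coe_mk,
      fourier_add]
    ring

theorem star_prodM {P : C(X × UnitAddCircle, ℂ)} (hP : P ∈ prodM) : star P ∈ prodM := by
  obtain ⟨u, n, rfl⟩ := hP
  refine ⟨star u, -n, ?_⟩
  ext p
  simp

theorem span_prodM_dense :
    (Submodule.span ℂ (prodM : Set C(X × UnitAddCircle, ℂ))).topologicalClosure = ⊤ := by
  have h1 := StarAlgebra.adjoin_eq_span (R := ℂ) (prodM : Set C(X × UnitAddCircle, ℂ))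
  have h2 : (prodM : Set C(X × UnitAddCircle, ℂ)) ∪ star (prodM : Set C(X × UnitAddCircle, ℂ)) =
      prodM := by
    refine Set.union_eq_left.2 fun P hP => ?_
    have := star_prodM (Set.mem_star.1 hP)
    rwa [star_star] at this
  rw [h2, Submonoid.closure_eq] at h1
  rw [← h1]
  have hsep : (StarAlgebra.adjoin ℂ (prodM : Set C(X × UnitAddCircle, ℂ))).SeparatesPoints := by
    intro p q hpq
    by_cases h : p.2 = q.2
    · have h3 : p.1 ≠ q.1 := fun h4 => hpq (Prod.ext h4 h)
      obtain ⟨i, hi⟩ := Function.ne_iff.1 h3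
      refine ⟨_, ⟨_, StarAlgebra.subset_adjoin _ _ ⟨zn i 1, 0, rfl⟩, rfl⟩, ?_⟩
      simp only [ContinuousMap.mul_apply, ContinuousMap.comp_apply, ContinuousMap.coe_mk, zn_apply,
        fourier_one, fourier_zero, mul_one]
      intro h5
      exact hi (AddCircle.injective_toCircle one_ne_zero (Subtype.coe_injective h5))
    · refine ⟨_, ⟨_, StarAlgebra.subset_adjoin _ _ ⟨1, 1, rfl⟩, rfl⟩, ?_⟩
      simp only [ContinuousMap.mul_apply, ContinuousMap.comp_apply, ContinuousMap.coe_mk,
        fourier_one, ContinuousMap.one_apply, one_mul]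
      intro h5
      exact h (AddCircle.injective_toCircle one_ne_zero (Subtype.coe_injective h5))
  have h3 := ContinuousMap.starSubalgebra_topologicalClosure_eq_top_of_separatesPoints _ hsep
  rw [eq_top_iff]
  intro P _
  have h4 : P ∈ (StarAlgebra.adjoin ℂ
    (prodM : Set C(X × UnitAddCircle, ℂ))).topologicalClosure := by rw [h3]; trivial
  exact h4

theorem integral_fourier_ne_zero {n : ℤ} (hn : n ≠ 0) :
    ∫ s : UnitAddCircle, (fourier n s : ℂ) = 0 := by
  have h1 : ∫ s : UnitAddCircle, (fourier n s : ℂ) =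
      ∫ s : UnitAddCircle, fourier n (s + ((1 / 2 / n : ℝ) : UnitAddCircle)) :=
    (integral_add_right_eq_self (fun s : UnitAddCircle => (fourier n s : ℂ)) _).symm
  have h2 : ∀ s : UnitAddCircle, (fourier n (s + ((1 / 2 / n : ℝ) : UnitAddCircle)) : ℂ) =
      -fourier n s := fun s => fourier_add_half_inv_index hn one_pos s
  simp_rw [h2] at h1
  rw [integral_neg] at h1
  exact self_eq_neg.1 h1

/-- Conditional Dirichlet property, complex form. -/
theorem cond_dirichlet {k : ℕ} {w : C(X, ℂ)} (hw : Dep (k + 1) w) {ε : ℝ} (hε : 0 < ε) :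
    ∃ f ∈ Nk k, ∃ f' ∈ Nk k, ∀ x, ‖w x - Ek k w x - f x - conj (f' x)‖ ≤ ε := by
  set W : C(X × UnitAddCircle, ℂ) :=
    ⟨fun p => w (Function.update p.1 k p.2), w.continuous.comp (continuous_upd k)⟩ with hW
  have hmem : W ∈ (Submodule.span ℂ
      (prodM : Set C(X × UnitAddCircle, ℂ))).topologicalClosure := by
    rw [span_prodM_dense]; trivial
  have hcl : W ∈ closure (Submodule.span ℂ
    (prodM : Set C(X × UnitAddCircle, ℂ)) : Set C(X × UnitAddCircle, ℂ)) := hmem
  obtain ⟨P, hP, hWP⟩ := Metric.mem_closure_iff.1 hcl (ε / 2) (by positivity)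
  have key : ∀ Q ∈ Submodule.span ℂ (prodM : Set C(X × UnitAddCircle, ℂ)),
      ∃ f ∈ Nk k, ∃ f' ∈ Nk k, ∀ x : X,
        Q (trunc k x, x k) - ∫ s, Q (trunc k x, s) = f x + conj (f' x) := by
    intro Q hQ
    refine Submodule.span_induction (p := fun (Q : C(X × UnitAddCircle, ℂ)) _ =>
      ∃ f ∈ Nk k, ∃ f' ∈ Nk k, ∀ x : X,
        Q (trunc k x, x k) - ∫ s, Q (trunc k x, s) = f x + conj (f' x)) ?_ ?_ ?_ ?_ hQ
    · rintro _ ⟨u, n, rfl⟩
      set v : C(X, ℂ) := u.comp ⟨trunc k, continuous_trunc k⟩ with hv
      have hvd : Dep k v := dep_comp_trunc k u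
      rcases lt_trichotomy n 0 with hn | rfl | hn
      · obtain ⟨m, rfl⟩ : ∃ m : ℕ, n = -((m : ℤ) + 1) := ⟨(-n - 1).toNat, by omega⟩
        refine ⟨0, zero_mem _, star v * zn k (m + 1),
          Submodule.subset_span ⟨star v, ?_, m, rfl⟩, fun x => ?_⟩
        · intro x y h
          simp only [ContinuousMap.star_apply, hvd x y h]
        · simp only [ContinuousMap.mul_apply, ContinuousMap.comp_apply, ContinuousMap.coe_mk]
          rw [integral_const_mul, integral_fourier_ne_zero (by omega), mul_zero, sub_zero]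
          rw [fourier_neg]
          show _ = (0 : ℂ) + conj (conj (u (trunc k x)) * (fourier ((m : ℤ) + 1) (x k) : ℂ))
          rw [map_mul, Complex.conj_conj, zero_add]
      · refine ⟨0, zero_mem _, 0, zero_mem _, fun x => ?_⟩
        simp only [ContinuousMap.mul_apply, ContinuousMap.comp_apply, ContinuousMap.coe_mk,
          fourier_zero, mul_one]
        rw [int_const]
        simp
      · obtain ⟨m, rfl⟩ : ∃ m : ℕ, n = (m : ℤ) + 1 := ⟨(n - 1).toNat, by omega⟩
        refine ⟨v * zn k (m + 1), Submodule.subset_span ⟨v, hvd, m, rfl⟩, 0, zero_mem _,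
          fun x => ?_⟩
        simp only [ContinuousMap.mul_apply, ContinuousMap.comp_apply, ContinuousMap.coe_mk]
        rw [integral_const_mul, integral_fourier_ne_zero (by omega), mul_zero, sub_zero]
        simp [zn_apply, hv]
    · exact ⟨0, zero_mem _, 0, zero_mem _, fun x => by simp⟩
    · rintro P Q _ _ ⟨f, hf, f', hf', h⟩ ⟨g, hg, g', hg', h'⟩
      refine ⟨f + g, add_mem hf hg, f' + g', add_mem hf' hg', fun x => ?_⟩
      simp only [ContinuousMap.add_apply, map_add]
      rw [integral_add (intble_prod P _) (intble_prod Q _)]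
      linear_combination h x + h' x
    · rintro c P _ ⟨f, hf, f', hf', h⟩
      refine ⟨c • f, Submodule.smul_mem _ _ hf, conj c • f', Submodule.smul_mem _ _ hf',
        fun x => ?_⟩
      simp only [ContinuousMap.smul_apply, smul_eq_mul, map_mul, Complex.conj_conj]
      rw [integral_const_mul]
      linear_combination c * h x
  obtain ⟨f, hf, f', hf', h⟩ := key P hP
  refine ⟨f, hf, f', hf', fun x => ?_⟩
  have hd : ∀ p, ‖W p - P p‖ ≤ ε / 2 := fun p => by
    rw [← dist_eq_norm]
    exact (ContinuousMap.dist_apply_le_dist p).trans hWP.le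
  have h1 : w x = W (trunc k x, x k) := (update_trunc hw x).symm
  have h2 : Ek k w x = ∫ s, W (trunc k x, s) := by
    rw [Ek_apply]
    congr 1
    funext s
    show w _ = w _
    refine hw _ _ fun i hi => ?_
    by_cases hik : i = k
    · subst hik; simp
    · rw [Function.update_of_ne hik, Function.update_of_ne hik]
      unfold trunc
      simp only [show i < k by omega, if_true]
  have h3 : ‖(∫ s, W (trunc k x, s)) - ∫ s, P (trunc k x, s)‖ ≤ ε / 2 := by
    rw [← integral_sub (intble_prod W _) (intble_prod P _)]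
    refine (norm_integral_le_of_norm_le_const
      (Filter.Eventually.of_forall fun s => hd (trunc k x, s))).trans ?_
    rw [vol_univ, mul_one]
  have h4 : w x - Ek k w x - f x - conj (f' x) = (W (trunc k x, x k) - P (trunc k x, x k)) -
      ((∫ s, W (trunc k x, s)) - ∫ s, P (trunc k x, s)) := by
    rw [h1, h2]
    linear_combination h x
  rw [h4]
  calc _ ≤ ‖W (trunc k x, x k) - P (trunc k x, x k)‖ +
      ‖(∫ s, W (trunc k x, s)) - ∫ s, P (trunc k x, s)‖ := norm_sub_le _ _
    _ ≤ ε / 2 + ε / 2 := add_le_add (hd _) h3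
    _ = ε := by ring

end Pool.Agent.Helper53_Dir
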