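import Pool.Agent.Helper53_Dir.KL

set_option autoImplicit false

open MeasureTheory Topology
open scoped ComplexConjugate

namespace Pool.Agent.Helper53_Dir

namespace Tower

variable (W : Tower)

/-- The revealing map is not constant. -/
theorem exists_ne : ∃ x y, W.q x < W.q y := by
  by_contra hcon
  push Not at hcon
  have hconst : ∀ x, W.q x = W.q 0 := fun x => le_antisymm (hcon _ _) (hcon _ _)
  have hmem : zn 0 (-1) ∈ A := by
    have hcl : zn 0 (-1) ∈ closure (A : Set C(X, ℂ)) := by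
      rw [Metric.mem_closure_iff]
      intro ε hε
      obtain ⟨z, z', τ, h0, h1, -, -, h⟩ := W.exists_two_point 0
      obtain ⟨g, a, ha, -, -, -, -, -, hga⟩ := W.KL (K := ∅) isClosed_empty
        (Set.notMem_empty _) h0 h1 h (zn 0 (-1)) (fun x hx => absurd hx (Set.notMem_empty _))
        (half_pos hε)
      refine ⟨algebraMap ℂ C(X, ℂ) (g (W.q 0)) + a, A.add_mem (A.algebraMap_mem _) ha, ?_⟩
      refine lt_of_le_of_lt ((ContinuousMap.dist_le (half_pos hε).le).2 fun x => ?_)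
        (half_lt_self hε)
      rw [dist_eq_norm, ContinuousMap.add_apply, algMap_apply]
      have := hga x
      rw [hconst x] at this
      rwa [← sub_sub]
    rwa [isClosed_A.closure_eq] at hcl
  have hmem2 : zn 0 1 ∈ A := by
    refine mem_A_of_Nk (k := 0) (Submodule.subset_span ⟨1, fun _ _ _ => rfl, 0, ?_⟩)
    simp
  have hsum : zn 0 (-1) + zn 0 1 ∈ A := A.add_mem hmem hmem2
  have hre : ∀ x, ((zn 0 (-1) + zn 0 1 : C(X, ℂ)) x).im = 0 := by
    intro x
    rw [ContinuousMap.add_apply, zn_apply, zn_apply, fourier_neg, Complex.add_im,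
      Complex.conj_im]
    ring
  have h1 := const_of_real hsum hre (0 : X) (fun _ => ((1 / 2 : ℝ) : UnitAddCircle))
  rw [ContinuousMap.add_apply, ContinuousMap.add_apply, zn_apply, zn_apply, zn_apply, zn_apply,
    fourier_neg, fourier_neg] at h1
  have h2 : (fourier 1 ((0 : X) 0) : ℂ) = 1 := by
    show (fourier 1 (0 : UnitAddCircle) : ℂ) = 1
    exact fourier_eval_zero 1
  have h3 : (fourier 1 ((1 / 2 : ℝ) : UnitAddCircle) : ℂ) = -1 := by
    have := fourier_add_half_inv_index (T := (1 : ℝ)) (n := 1) one_ne_zero one_pos 0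
    rw [fourier_eval_zero] at this
    rw [← this]
    congr 1
    rw [zero_add]
    norm_num
  rw [h2, h3] at h1
  simp only [map_neg, map_one] at h1
  norm_num at h1

/-- minimum and maximum of the revealing map -/
theorem exists_range : ∃ α β : ℝ, α < β ∧ (∀ x, α ≤ W.q x ∧ W.q x ≤ β) ∧
    ∀ t, α ≤ t → t ≤ β → ∃ x, W.q x = t := by
  obtain ⟨x1, -, h1⟩ := isCompact_univ.exists_isMinOn (Set.univ_nonempty (α := X))
    W.q.continuous.continuousOn
  obtain ⟨x2, -, h2⟩ := isCompact_univ.exists_isMaxOn (Set.univ_nonempty (α := X))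
    W.q.continuous.continuousOn
  have h1' : ∀ x, W.q x1 ≤ W.q x := fun x => h1 (Set.mem_univ x)
  have h2' : ∀ x, W.q x ≤ W.q x2 := fun x => h2 (Set.mem_univ x)
  obtain ⟨x, y, hxy⟩ := W.exists_ne
  refine ⟨W.q x1, W.q x2, (h1' x).trans_lt (hxy.trans_le (h2' y)), fun x => ⟨h1' x, h2' x⟩,
    fun t h3 h4 => ?_⟩
  exact mem_range_of_exists_le_of_exists_ge W.q.continuous ⟨x1, h3⟩ ⟨x2, h4⟩

/-- A function in `A` supported near a point of the line, not killed by the two point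
functional. -/
theorem exists_f0 {x0 z z' : X} {τ : ℝ} (hz : W.q z = W.q x0) (hz' : W.q z' = W.q x0)
    {K : Set ℝ} (hK : IsClosed K) (hp : W.q x0 ∉ K) :
    ∃ f ∈ A, (∀ x, W.q x ∈ K → f x = 0) ∧ ((1 - τ : ℝ) : ℂ) * f z + (τ : ℂ) * f z' ≠ 0 := by
  obtain ⟨η, hη, hηK⟩ := exists_margin (L := {W.q x0}) isCompact_singleton
    (Set.singleton_nonempty _) hK (Set.disjoint_singleton_left.2 hp)
  obtain ⟨k0, hk0⟩ := W.exists_b_le hη
  have key : ∀ (k : ℕ) (v : C(X, ℂ)), k0 ≤ k → Dep k v →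
      ∃ f ∈ A, (∀ x, W.q x ∈ K → f x = 0) ∧ f z = v z * zn k 1 z ∧ f z' = v z' * zn k 1 z' := by
    intro k v hk hv
    let χ : C(X, ℂ) := ⟨fun x => (cut {W.q x0} η 2 (W.Q k x) : ℂ),
      Complex.continuous_ofReal.comp ((continuous_cut _ η 2).comp (W.Q k).continuous)⟩
    have hχ : ∀ x, χ x = (cut {W.q x0} η 2 (W.Q k x) : ℂ) := fun _ => rfl
    have hχd : Dep k χ := by
      intro x y h
      rw [hχ, hχ, W.dep k x y h]
    have h1 : ∀ w, W.q w = W.q x0 → χ w = 1 := by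
      intro w hw
      rw [hχ, cut_one hη, Complex.ofReal_one]
      rw [Metric.infDist_singleton, Real.dist_eq, abs_sub_comm, ← hw]
      have h2 := W.near k w
      have h3 := hk0 k hk
      linarith
    refine ⟨(χ * v) * zn k 1, ?_, ?_, ?_, ?_⟩
    · refine mem_A_of_Nk (k := k) (Submodule.subset_span ⟨χ * v, ?_, 0, ?_⟩)
      · intro x y h
        rw [ContinuousMap.mul_apply, ContinuousMap.mul_apply, hχd x y h, hv x y h]
      · simp
    · intro x hx
      have h2 := hηK _ hx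
      have h3 := W.near k x
      have h4 := hk0 k hk
      have h5 := (abs_le.1 (infDist_lip {W.q x0} (W.q x) (W.Q k x))).2
      rw [ContinuousMap.mul_apply, ContinuousMap.mul_apply, hχ, cut_zero hη (by linarith)]
      simp
    · rw [ContinuousMap.mul_apply, ContinuousMap.mul_apply, h1 z hz, one_mul]
    · rw [ContinuousMap.mul_apply, ContinuousMap.mul_apply, h1 z' hz', one_mul]
  have hznz : ∀ k (x : X), zn k 1 x ≠ 0 := by
    intro k x h
    have := norm_zn_apply k 1 x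
    rw [h, norm_zero] at this
    exact zero_ne_one this
  by_cases hτ : τ = 1
  · obtain ⟨f, hf, hfK, -, hfz'⟩ := key k0 1 le_rfl (fun _ _ _ => rfl)
    refine ⟨f, hf, hfK, ?_⟩
    rw [hτ, hfz']
    simpa using hznz k0 z'
  · have hτ' : ((1 - τ : ℝ) : ℂ) ≠ 0 := by
      rw [Complex.ofReal_ne_zero]
      exact sub_ne_zero.2 (Ne.symm hτ)
    by_cases hzz : z = z'
    · obtain ⟨f, hf, hfK, hfz, -⟩ := key k0 1 le_rfl (fun _ _ _ => rfl)
      refine ⟨f, hf, hfK, ?_⟩
      rw [← hzz, ← add_mul]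
      have : ((1 - τ : ℝ) : ℂ) + (τ : ℂ) = 1 := by push_cast; ring
      rw [this, one_mul, hfz]
      simpa using hznz k0 z
    · obtain ⟨i, hi⟩ := Function.ne_iff.1 hzz
      let v : C(X, ℂ) := ⟨fun x => ((dist (x i) (z' i) : ℝ) : ℂ),
        Complex.continuous_ofReal.comp ((continuous_apply i).dist continuous_const)⟩
      have hv : Dep (i + 1) v := by
        intro x y h
        show ((dist (x i) (z' i) : ℝ) : ℂ) = ((dist (y i) (z' i) : ℝ) : ℂ)
        rw [h i (Nat.lt_succ_self i)]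
      obtain ⟨f, hf, hfK, hfz, hfz'⟩ := key (max k0 (i + 1)) v (le_max_left _ _)
        (hv.mono (le_max_right _ _))
      refine ⟨f, hf, hfK, ?_⟩
      have h1 : v z' = 0 := by
        show ((dist (z' i) (z' i) : ℝ) : ℂ) = 0
        simp
      have h2 : v z ≠ 0 := by
        show ((dist (z i) (z' i) : ℝ) : ℂ) ≠ 0
        rw [Complex.ofReal_ne_zero]
        exact dist_ne_zero.2 hi
      rw [hfz, hfz', h1, zero_mul, mul_zero, add_zero]
      exact mul_ne_zero hτ' (mul_ne_zero h2 (hznz _ _))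

end Tower

/-- Data of the quotient to the unit interval. -/
structure Quot (W : Tower) where
  p : C(X, unitInterval)
  φ : C(unitInterval, ℝ)
  surj : Function.Surjective p
  inj : Function.Injective φ
  comp : ∀ x, φ (p x) = W.q x

theorem exists_quot (W : Tower) : Nonempty (Quot W) := by
  obtain ⟨α, β, hαβ, h1, h2⟩ := W.exists_range
  have h0 : 0 < β - α := by linarith
  refine ⟨⟨⟨fun x => ⟨(W.q x - α) / (β - α), ?_, ?_⟩, ?_⟩, ⟨fun t => α + (β - α) * (t : ℝ), ?_⟩,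
    ?_, ?_, ?_⟩⟩
  · exact div_nonneg (by linarith [(h1 x).1]) h0.le
  · rw [div_le_one h0]; linarith [(h1 x).2]
  · exact ((W.q.continuous.sub continuous_const).div_const _).subtype_mk _
  · exact continuous_const.add (continuous_const.mul continuous_subtype_val)
  · intro t
    obtain ⟨x, hx⟩ := h2 (α + (β - α) * (t : ℝ)) (by
      have := mul_nonneg h0.le t.2.1
      linarith) (by
      have := mul_le_mul_of_nonneg_left t.2.2 h0.le
      linarith)
    refine ⟨x, Subtype.ext ?_⟩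
    show (W.q x - α) / (β - α) = t
    rw [hx]
    field_simp
    ring
  · intro s t hst
    have : α + (β - α) * (s : ℝ) = α + (β - α) * (t : ℝ) := hst
    have h3 : (β - α) * (s : ℝ) = (β - α) * (t : ℝ) := by linarith
    exact Subtype.ext (mul_left_cancel₀ h0.ne' h3)
  · intro x
    show α + (β - α) * ((W.q x - α) / (β - α)) = W.q x
    field_simp
    ring

namespace Quot

variable {W : Tower} (q : Quot W)

/-- The algebra on the unit interval. -/
noncomputable def alg : Subalgebra ℂ C(unitInterval, ℂ) :=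
  A.comap (ContinuousMap.compRightAlgHom ℂ ℂ q.p)

theorem mem_alg {f : C(unitInterval, ℂ)} : f ∈ q.alg ↔ f.comp q.p ∈ A := Iff.rfl

theorem isClosed_alg : IsClosed (q.alg : Set C(unitInterval, ℂ)) :=
  isClosed_A.preimage (ContinuousMap.continuous_precomp q.p)

theorem norm_comp (g : C(unitInterval, ℂ)) {C : ℝ} (hC : 0 ≤ C) (h : ∀ x, ‖g (q.p x)‖ ≤ C) :
    ‖g‖ ≤ C := by
  rw [ContinuousMap.norm_le _ hC]
  intro t
  obtain ⟨x, rfl⟩ := q.surj t
  exact h x

/-- `KL` on the unit interval. -/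
theorem KL' {K : Set unitInterval} (hK : IsClosed K) {x0 : X} (hp : q.p x0 ∉ K) {z z' : X} {τ : ℝ}
    (hτ0 : 0 ≤ τ) (hτ1 : τ ≤ 1)
    (hz : ∀ (e : C(X, ℂ)) (ε : ℝ), 0 < ε → ∃ᶠ k in Filter.atTop,
      ‖W.T k e (W.q x0) - (((1 - τ : ℝ) : ℂ) * e z + (τ : ℂ) * e z')‖ ≤ ε)
    (e : C(X, ℂ)) (he : ∀ x, q.p x ∈ K → e x = 0) {ε : ℝ} (hε : 0 < ε) :
    ∃ (g : C(unitInterval, ℂ)) (a : C(X, ℂ)), a ∈ A ∧ (∀ t ∈ K, g t = 0) ∧
      (∀ x, q.p x ∈ K → a x = 0) ∧ ‖g‖ ≤ ‖e‖ + ε ∧
      ((∀ x, (e x).im = 0) → ∀ t, (g t).im = 0) ∧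
      ‖g (q.p x0) - (((1 - τ : ℝ) : ℂ) * e z + (τ : ℂ) * e z')‖ ≤ ε ∧
      ‖e - g.comp q.p - a‖ ≤ ε := by
  have hK' : IsClosed (q.φ '' K) := (hK.isCompact.image q.φ.continuous).isClosed
  have hmem : ∀ x, W.q x ∈ q.φ '' K ↔ q.p x ∈ K := by
    intro x
    rw [← q.comp x]
    exact q.inj.mem_set_image
  obtain ⟨g, a, ha, hgK, haK, hgb, hgr, hgp, hga⟩ := W.KL hK' (fun h => hp ((hmem x0).1 h))
    hτ0 hτ1 hz e (fun x hx => he x ((hmem x).1 hx)) hε
  refine ⟨g.comp q.φ, a, ha, ?_, fun x hx => haK x ((hmem x).2 hx), ?_, ?_, ?_, ?_⟩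
  · intro t ht
    exact hgK _ (Set.mem_image_of_mem _ ht)
  · refine q.norm_comp _ (by positivity) fun x => ?_
    rw [ContinuousMap.comp_apply, q.comp]
    exact hgb x
  · intro h t
    obtain ⟨x, rfl⟩ := q.surj t
    rw [ContinuousMap.comp_apply, q.comp]
    exact hgr h x
  · rw [ContinuousMap.comp_apply, q.comp]
    exact hgp
  · rw [ContinuousMap.norm_le _ hε.le]
    intro x
    have := hga x
    rw [← q.comp x] at this
    exact this

/-- Exact decomposition. -/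
theorem exact {K : Set unitInterval} (hK : IsClosed K) {x0 : X} (hp : q.p x0 ∉ K) {z z' : X}
    {τ : ℝ} (hτ0 : 0 ≤ τ) (hτ1 : τ ≤ 1)
    (hz : ∀ (e : C(X, ℂ)) (ε : ℝ), 0 < ε → ∃ᶠ k in Filter.atTop,
      ‖W.T k e (W.q x0) - (((1 - τ : ℝ) : ℂ) * e z + (τ : ℂ) * e z')‖ ≤ ε)
    (e : C(X, ℂ)) (he : ∀ x, q.p x ∈ K → e x = 0) {ε : ℝ} (hε : 0 < ε) :
    ∃ g : C(unitInterval, ℂ), (∀ t ∈ K, g t = 0) ∧ e - g.comp q.p ∈ A ∧
      ‖g‖ ≤ ‖e‖ + ε ∧ ((∀ x, (e x).im = 0) → ∀ t, |(g t).im| ≤ ε) ∧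
      ‖g (q.p x0) - (((1 - τ : ℝ) : ℂ) * e z + (τ : ℂ) * e z')‖ ≤ ε := by
  let V := {e : C(X, ℂ) // ∀ x, q.p x ∈ K → e x = 0}
  let tl : ℕ → ℝ := fun j => ε / 8 / 2 ^ j
  have htl : ∀ j, 0 < tl j := fun j => by show 0 < ε / 8 / 2 ^ j; positivity
  have H : ∀ (j : ℕ) (e : V), ∃ (g : C(unitInterval, ℂ)) (e' : V),
      (e.1 - g.comp q.p - e'.1) ∈ A ∧ (∀ t ∈ K, g t = 0) ∧ ‖g‖ ≤ ‖e.1‖ + tl j ∧
      ((∀ x, (e.1 x).im = 0) → ∀ t, (g t).im = 0) ∧
      ‖g (q.p x0) - (((1 - τ : ℝ) : ℂ) * e.1 z + (τ : ℂ) * e.1 z')‖ ≤ tl j ∧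
      ‖e'.1‖ ≤ tl j := by
    rintro j ⟨e, he⟩
    obtain ⟨g, a, ha, hgK, haK, hgb, hgr, hgp, hga⟩ := q.KL' hK hp hτ0 hτ1 hz e he (htl j)
    refine ⟨g, ⟨e - g.comp q.p - a, fun x hx => ?_⟩, ?_, hgK, hgb, hgr, hgp, hga⟩
    · rw [ContinuousMap.sub_apply, ContinuousMap.sub_apply, he x hx, haK x hx,
        ContinuousMap.comp_apply, hgK _ hx]
      simp
    · show e - g.comp q.p - (e - g.comp q.p - a) ∈ A
      rw [sub_sub_cancel]
      exact ha
  choose G E hA hGK hGb hGr hGp hE using H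
  let s : ℕ → V := fun j => Nat.rec ⟨e, he⟩ (fun j e => E j e) j
  have hs0 : s 0 = ⟨e, he⟩ := rfl
  have hs : ∀ j, s (j + 1) = E j (s j) := fun _ => rfl
  let g : ℕ → C(unitInterval, ℂ) := fun j => G j (s j)
  have hg : ∀ j, g j = G j (s j) := fun _ => rfl
  have hsb : ∀ j, ‖(s (j + 1)).1‖ ≤ tl j := fun j => by rw [hs]; exact hE j (s j)
  have hgb : ∀ j, ‖g (j + 1)‖ ≤ ε / 2 / 2 / 2 ^ j := by
    intro j
    refine (hGb (j + 1) (s (j + 1))).trans ?_
    have h1 := hsb j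
    have h2 : tl (j + 1) = tl j / 2 := by
      show ε / 8 / 2 ^ (j + 1) = ε / 8 / 2 ^ j / 2
      rw [pow_succ]; field_simp
    have h3 : ε / 2 / 2 / 2 ^ j = 2 * tl j := by
      show ε / 2 / 2 / 2 ^ j = 2 * (ε / 8 / 2 ^ j)
      ring
    have h4 := htl j
    rw [h2, h3]
    linarith
  have hsum' : Summable fun j => g (j + 1) :=
    Summable.of_norm_bounded (summable_geometric_two' (ε / 2)) hgb
  have hsum : Summable g := (summable_nat_add_iff 1).1 hsum'
  obtain ⟨gL, hgL⟩ := hsum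
  have hsplit : ‖gL - g 0‖ ≤ ε / 2 := by
    have h1 : HasSum (fun j => g (j + 1)) (gL - g 0) := by
      have := (hasSum_nat_add_iff' 1).2 hgL
      simpa using this
    rw [← h1.tsum_eq]
    refine (norm_tsum_le_tsum_norm ?_).trans ?_
    · exact Summable.of_nonneg_of_le (fun _ => norm_nonneg _) hgb
        (summable_geometric_two' (ε / 2))
    · calc ∑' j, ‖g (j + 1)‖ ≤ ∑' j : ℕ, ε / 2 / 2 / 2 ^ j :=
            Summable.tsum_le_tsum hgb (Summable.of_nonneg_of_le (fun _ => norm_nonneg _) hgb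
              (summable_geometric_two' (ε / 2))) (summable_geometric_two' (ε / 2))
        _ = ε / 2 := tsum_geometric_two' _
  have hpart : ∀ n, e - (∑ j ∈ Finset.range n, g j).comp q.p - (s n).1 ∈ A := by
    intro n
    induction n with
    | zero =>
      have : e - (∑ j ∈ Finset.range 0, g j).comp q.p - (s 0).1 = 0 := by
        rw [hs0]
        ext x
        simp
      rw [this]
      exact A.zero_mem
    | succ n ih =>
      have h1 := hA n (s n)
      have h2 : e - (∑ j ∈ Finset.range (n + 1), g j).comp q.p - (s (n + 1)).1 =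
          (e - (∑ j ∈ Finset.range n, g j).comp q.p - (s n).1) +
          ((s n).1 - (G n (s n)).comp q.p - (E n (s n)).1) := by
        rw [Finset.sum_range_succ, hs, hg]
        ext x
        simp only [ContinuousMap.sub_apply, ContinuousMap.add_apply, ContinuousMap.comp_apply]
        ring
      rw [h2]
      exact A.add_mem ih h1
  have hs0' : Filter.Tendsto (fun n => (s n).1) Filter.atTop (𝓝 0) := by
    rw [← Filter.tendsto_add_atTop_iff_nat 1]
    refine squeeze_zero_norm hsb ?_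
    have h1 : Filter.Tendsto (fun n : ℕ => ε / 8 * (1 / 2) ^ n) Filter.atTop (𝓝 (ε / 8 * 0)) :=
      (tendsto_pow_atTop_nhds_zero_of_lt_one (by norm_num) (by norm_num)).const_mul _
    rw [mul_zero] at h1
    refine h1.congr fun n => ?_
    show ε / 8 * (1 / 2) ^ n = ε / 8 / 2 ^ n
    rw [one_div, inv_pow, ← div_eq_mul_inv]
  have hlim : e - gL.comp q.p ∈ A := by
    have h1 : Filter.Tendsto (fun n => e - (∑ j ∈ Finset.range n, g j).comp q.p - (s n).1)
        Filter.atTop (𝓝 (e - gL.comp q.p - 0)) := by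
      refine (tendsto_const_nhds.sub ?_).sub hs0'
      exact ((ContinuousMap.continuous_precomp q.p).tendsto _).comp hgL.tendsto_sum_nat
    rw [sub_zero] at h1
    exact isClosed_A.mem_of_tendsto h1 (Filter.Eventually.of_forall hpart)
  have hval : ∀ t, ‖gL t - g 0 t‖ ≤ ε / 2 := by
    intro t
    have := (gL - g 0).norm_coe_le_norm t
    rw [ContinuousMap.sub_apply] at this
    exact this.trans hsplit
  have htl0 : tl 0 = ε / 8 := by show ε / 8 / 2 ^ 0 = ε / 8; simp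
  refine ⟨gL, ?_, hlim, ?_, ?_, ?_⟩
  · intro t ht
    have h1 : Filter.Tendsto (fun n => (∑ j ∈ Finset.range n, g j) t) Filter.atTop
        (𝓝 (gL t)) := ((continuous_eval_const t).tendsto _).comp
          hgL.tendsto_sum_nat
    have h2 : ∀ n, (∑ j ∈ Finset.range n, g j) t = 0 := by
      intro n
      rw [ContinuousMap.sum_apply]
      exact Finset.sum_eq_zero fun j _ => hGK j (s j) t ht
    simp_rw [h2] at h1
    exact tendsto_nhds_unique h1 tendsto_const_nhds |>.symm ▸ rfl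
  · have h1 := hGb 0 (s 0)
    rw [htl0, hs0] at h1
    have h2 : ‖g 0‖ ≤ ‖e‖ + ε / 8 := h1
    calc ‖gL‖ = ‖(gL - g 0) + g 0‖ := by rw [sub_add_cancel]
      _ ≤ ‖gL - g 0‖ + ‖g 0‖ := norm_add_le _ _
      _ ≤ ‖e‖ + ε := by linarith
  · intro hre t
    have h1 : (g 0 t).im = 0 := hGr 0 (s 0) hre t
    have h2 := (Complex.abs_im_le_norm _).trans (hval t)
    rw [Complex.sub_im, h1, sub_zero] at h2
    linarith
  · have h1 := hGp 0 (s 0)
    rw [htl0, hs0] at h1
    have h1' : ‖g 0 (q.p x0) - (((1 - τ : ℝ) : ℂ) * e z + (τ : ℂ) * e z')‖ ≤ ε / 8 := h1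
    have h2 : gL (q.p x0) - (((1 - τ : ℝ) : ℂ) * e z + (τ : ℂ) * e z') =
        (gL (q.p x0) - g 0 (q.p x0)) +
        (g 0 (q.p x0) - (((1 - τ : ℝ) : ℂ) * e z + (τ : ℂ) * e z')) := by ring
    rw [h2]
    calc _ ≤ ε / 2 + ε / 8 := (norm_add_le _ _).trans (add_le_add (hval _) h1')
      _ ≤ ε := by linarith

theorem ne_top : q.alg ≠ ⊤ := by
  intro h
  let g : C(unitInterval, ℂ) := ⟨fun t => ((q.φ t : ℝ) : ℂ),
    Complex.continuous_ofReal.comp q.φ.continuous⟩
  have h1 : g.comp q.p ∈ A := by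
    have : g ∈ q.alg := by rw [h]; trivial
    exact this
  obtain ⟨x, y, hxy⟩ := W.exists_ne
  have h2 := const_of_real h1 (fun x => Complex.ofReal_im _) x y
  have h3 : ((q.φ (q.p x) : ℝ) : ℂ) = ((q.φ (q.p y) : ℝ) : ℂ) := h2
  rw [q.comp, q.comp] at h3
  have h4 : W.q x = W.q y := by exact_mod_cast h3
  exact hxy.ne h4

theorem regular {K : Set unitInterval} (hK : IsClosed K) {t0 : unitInterval} (ht0 : t0 ∉ K) :
    ∃ f ∈ q.alg, f t0 = 1 ∧ ∀ t ∈ K, f t = 0 := by
  obtain ⟨x0, rfl⟩ := q.surj t0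
  obtain ⟨z, z', τ, h0, h1, hz, hz', h⟩ := W.exists_two_point x0
  have hK' : IsClosed (q.φ '' K) := (hK.isCompact.image q.φ.continuous).isClosed
  have hmem : ∀ x, W.q x ∈ q.φ '' K ↔ q.p x ∈ K := by
    intro x
    rw [← q.comp x]
    exact q.inj.mem_set_image
  obtain ⟨f0, hf0, hf0K, hne⟩ := W.exists_f0 (τ := τ) hz hz' hK' (fun h => ht0 ((hmem x0).1 h))
  set c : ℂ := ((1 - τ : ℝ) : ℂ) * f0 z + (τ : ℂ) * f0 z' with hc
  have hc0 : 0 < ‖c‖ := norm_pos_iff.2 hne
  obtain ⟨g, hgK, hgA, -, -, hgp⟩ := q.exact hK ht0 h0 h1 h f0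
    (fun x hx => hf0K x ((hmem x).2 hx)) (half_pos hc0)
  have hgalg : g ∈ q.alg := by
    rw [mem_alg]
    have := A.sub_mem hf0 hgA
    rwa [sub_sub_cancel] at this
  have hg0 : g (q.p x0) ≠ 0 := by
    intro h2
    rw [h2, zero_sub, norm_neg] at hgp
    linarith
  refine ⟨(g (q.p x0))⁻¹ • g, q.alg.smul_mem hgalg _, ?_, fun t ht => ?_⟩
  · rw [ContinuousMap.smul_apply, smul_eq_mul, inv_mul_cancel₀ hg0]
  · rw [ContinuousMap.smul_apply, hgK t ht, smul_zero]

theorem dirichlet (u : C(unitInterval, ℝ)) {ε : ℝ} (hε : 0 < ε) :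
    ∃ f ∈ q.alg, ∀ t, |(f t).re - u t| ≤ ε := by
  obtain ⟨z, z', τ, h0, h1, hz, hz', h⟩ := W.exists_two_point 0
  let w : C(X, ℂ) := ⟨fun x => ((u (q.p x) : ℝ) : ℂ),
    Complex.continuous_ofReal.comp (u.continuous.comp q.p.continuous)⟩
  obtain ⟨f, hf, hfw⟩ := dirichlet_X w (ε := ε / 8) (by positivity)
  let v : C(X, ℂ) := ⟨fun x => ((f x).im : ℂ),
    Complex.continuous_ofReal.comp (Complex.continuous_im.comp f.continuous)⟩
  obtain ⟨g0, a0, ha0, -, -, -, hg0r, -, hga⟩ := q.KL' (K := ∅) isClosed_empty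
    (Set.notMem_empty (q.p 0)) h0 h1 h v (fun x hx => absurd hx (Set.notMem_empty _))
    (ε := ε / 8) (by positivity)
  have hg0r' : ∀ t, (g0 t).im = 0 := hg0r fun x => Complex.ofReal_im _
  let G : C(unitInterval, ℂ) := ⟨fun t => ((u t : ℝ) : ℂ),
    Complex.continuous_ofReal.comp u.continuous⟩ + Complex.I • g0
  have hG : ∀ t, G t = (u t : ℂ) + Complex.I * g0 t := fun _ => rfl
  set e1 : C(X, ℂ) := G.comp q.p - (f - Complex.I • a0) with he1
  have he1b : ‖e1‖ ≤ ε / 4 := by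
    rw [ContinuousMap.norm_le _ (by positivity)]
    intro x
    have h2 : e1 x = (((u (q.p x) - (f x).re : ℝ)) : ℂ) -
        Complex.I * (v x - g0 (q.p x) - a0 x) := by
      have h3 : f x = ((f x).re : ℂ) + Complex.I * v x := by
        show f x = ((f x).re : ℂ) + Complex.I * ((f x).im : ℂ)
        rw [mul_comm]
        exact (Complex.re_add_im (f x)).symm
      show (G (q.p x)) - (f x - Complex.I * a0 x) = _
      rw [hG]
      conv_lhs => rw [h3]
      push_cast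
      ring
    rw [h2]
    have h4 : ‖(((u (q.p x) - (f x).re : ℝ)) : ℂ)‖ ≤ ε / 8 := by
      rw [Complex.norm_real, Real.norm_eq_abs]
      have := hfw x
      exact this
    have h5 : ‖Complex.I * (v x - g0 (q.p x) - a0 x)‖ ≤ ε / 8 := by
      rw [norm_mul, Complex.norm_I, one_mul]
      exact ((v - g0.comp q.p - a0).norm_coe_le_norm x).trans hga
    calc _ ≤ ε / 8 + ε / 8 := (norm_sub_le _ _).trans (add_le_add h4 h5)
      _ = ε / 4 := by ring
  obtain ⟨g', -, hg'A, hg'b, -, -⟩ := q.exact (K := ∅) isClosed_empty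
    (Set.notMem_empty (q.p 0)) h0 h1 h e1 (fun x hx => absurd hx (Set.notMem_empty _))
    (ε := ε / 4) (by positivity)
  refine ⟨G - g', ?_, fun t => ?_⟩
  · rw [mem_alg]
    have h2 : (G - g').comp q.p = (e1 - g'.comp q.p) + (f - Complex.I • a0) := by
      rw [he1]
      ext x
      simp only [ContinuousMap.comp_apply, ContinuousMap.sub_apply, ContinuousMap.add_apply]
      ring
    rw [h2]
    exact A.add_mem hg'A (A.sub_mem hf (A.smul_mem ha0 _))
  · have h2 : ((G - g') t).re - u t = -(g' t).re := by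
      rw [ContinuousMap.sub_apply, hG, Complex.sub_re, Complex.add_re, Complex.ofReal_re,
        Complex.mul_re, Complex.I_re, Complex.I_im, hg0r' t]
      ring
    rw [h2, abs_neg]
    calc |(g' t).re| ≤ ‖g' t‖ := Complex.abs_re_le_norm _
      _ ≤ ‖g'‖ := g'.norm_coe_le_norm t
      _ ≤ ε := by linarith

end Quot

end Pool.Agent.Helper53_Dir
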