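import Pool.Agent.Helper53_Dir.Tower

set_option autoImplicit false

open MeasureTheory Topology
open scoped ComplexConjugate

namespace Pool.Agent.Helper53_Dir

namespace Tower

variable (W : Tower)

theorem step_le (k : ℕ) (x : X) : |W.Q (k + 1) x - W.Q k x| ≤ W.b k := by
  have h1 := W.step k x
  have h2 := W.bpos k
  linarith

/-- bounds for the interpolation operator -/
theorem T_bound {k : ℕ} {t : ℝ} (ht : ∃ x, |t - W.Q k x| ≤ W.b k) (e : C(X, ℂ)) {M : ℝ}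
    (hM : ∀ x, ‖e x‖ ≤ M) : ‖W.T k e t‖ ≤ M := by
  obtain ⟨y, y', τ, h0, h1, -, -, h⟩ := W.conv k t ht
  rw [h e]
  calc ‖((1 - τ : ℝ) : ℂ) * e y + (τ : ℂ) * e y'‖
      ≤ ‖((1 - τ : ℝ) : ℂ) * e y‖ + ‖(τ : ℂ) * e y'‖ := norm_add_le _ _
    _ = (1 - τ) * ‖e y‖ + τ * ‖e y'‖ := by
        rw [norm_mul, norm_mul, Complex.norm_real, Complex.norm_real,
          Real.norm_of_nonneg (by linarith), Real.norm_of_nonneg h0]
    _ ≤ (1 - τ) * M + τ * M :=
        add_le_add (mul_le_mul_of_nonneg_left (hM y) (by linarith))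
          (mul_le_mul_of_nonneg_left (hM y') h0)
    _ = M := by ring

theorem T_real {k : ℕ} {t : ℝ} (ht : ∃ x, |t - W.Q k x| ≤ W.b k) (e : C(X, ℂ))
    (he : ∀ x, (e x).im = 0) : (W.T k e t).im = 0 := by
  obtain ⟨y, y', τ, h0, h1, -, -, h⟩ := W.conv k t ht
  rw [h e, Complex.add_im, Complex.im_ofReal_mul, Complex.im_ofReal_mul, he, he]
  ring

variable (L : Set ℝ) (η : ℝ) (k : ℕ) (e : C(X, ℂ))

/-- the local function on the line -/
noncomputable def gk : C(ℝ, ℂ) :=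
  ⟨fun t => (cut L η 5 t : ℂ) * W.T k e t,
    (Complex.continuous_ofReal.comp (continuous_cut L η 5)).mul (W.T k e).continuous⟩

theorem gk_apply (t : ℝ) : W.gk L η k e t = (cut L η 5 t : ℂ) * W.T k e t := rfl

/-- the remainder -/
noncomputable def rk : C(X, ℂ) := e - (W.gk L η k e).comp (W.Q (k + 1))

theorem rk_apply (x : X) : W.rk L η k e x = e x - W.gk L η k e (W.Q (k + 1) x) := rfl

variable {L η k e}

theorem gk_bound {t : ℝ} (ht : ∃ x, |t - W.Q k x| ≤ W.b k) {M : ℝ} (hM : ∀ x, ‖e x‖ ≤ M) :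
    ‖W.gk L η k e t‖ ≤ M := by
  rw [gk_apply, norm_mul, Complex.norm_real, Real.norm_of_nonneg (cut_nonneg _ _ _ _)]
  calc cut L η 5 t * ‖W.T k e t‖ ≤ 1 * ‖W.T k e t‖ :=
        mul_le_mul_of_nonneg_right (cut_le_one _ _ _ _) (norm_nonneg _)
    _ = ‖W.T k e t‖ := one_mul _
    _ ≤ M := W.T_bound ht e hM

theorem rk_dep {N : ℕ} (he : Dep N e) (hN : N ≤ k) : Dep (k + 1) (W.rk L η k e) := by
  intro x y h
  rw [rk_apply, rk_apply, (he.mono (hN.trans (Nat.le_succ k))) x y h, W.dep (k + 1) x y h]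

theorem rk_bound {M : ℝ} (hM : ∀ x, ‖e x‖ ≤ M) (x : X) : ‖W.rk L η k e x‖ ≤ 2 * M := by
  rw [rk_apply]
  calc _ ≤ ‖e x‖ + ‖W.gk L η k e (W.Q (k + 1) x)‖ := norm_sub_le _ _
    _ ≤ M + M := add_le_add (hM x) (W.gk_bound ⟨x, W.step_le k x⟩ hM)
    _ = 2 * M := by ring

/-- distance between levels -/
theorem level_dist {N k : ℕ} (hNk : N ≤ k) (hb : W.b N ≤ η / 2) (x : X) :
    |W.Q k x - W.Q N x| ≤ η := by
  have h1 := W.near k x
  have h2 := W.near N x
  have h3 := W.b_anti hNk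
  calc |W.Q k x - W.Q N x| = |(W.q x - W.Q N x) - (W.q x - W.Q k x)| := by congr 1; ring
    _ ≤ |W.q x - W.Q N x| + |W.q x - W.Q k x| := abs_sub _ _
    _ ≤ η := by linarith

/-- support of the remainder -/
theorem rk_supp {N : ℕ} (hN : N ≤ k) (hη : 0 < η) (hb : W.b N ≤ η / 2)
    (hsupp : ∀ x, e x ≠ 0 → Metric.infDist (W.Q N x) L < 2 * η) {x : X}
    (hx : W.rk L η k e x ≠ 0) : Metric.infDist (W.Q k x) L < 6 * η := by
  by_cases h1 : e x = 0
  · have h2 : W.gk L η k e (W.Q (k + 1) x) ≠ 0 := by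
      intro h
      rw [rk_apply, h1, h, sub_zero] at hx
      exact hx rfl
    have h3 : Metric.infDist (W.Q (k + 1) x) L < 5 * η := by
      by_contra h4
      push Not at h4
      exact h2 (by rw [gk_apply, cut_zero hη h4]; simp)
    have h4 := infDist_lip L (W.Q k x) (W.Q (k + 1) x)
    have h5 := W.step_le k x
    have h6 := W.b_anti hN
    rw [abs_sub_comm] at h5
    have h7 := (abs_le.1 h4).2
    linarith
  · have h2 := hsupp x h1
    have h3 := W.level_dist hN hb x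
    have h4 := (abs_le.1 (infDist_lip L (W.Q k x) (W.Q N x))).2
    linarith

theorem rk_mean {N : ℕ} (he : Dep N e) (hN : N ≤ k) (hη : 0 < η) (hb : W.b N ≤ η / 2)
    (hsupp : ∀ x, e x ≠ 0 → Metric.infDist (W.Q N x) L < 2 * η) {M δ : ℝ}
    (hM : ∀ x, ‖e x‖ ≤ M) (hM0 : 0 ≤ M) (hδ : 0 ≤ δ)
    (hω : ∀ x y, D N x y < tol k → dist (e x) (e y) ≤ δ) (x : X) :
    ‖Ek k (W.rk L η k e) x‖ ≤ δ + 2 * M * tol k := by
  obtain ⟨B, hBm, hBv, hB⟩ := W.read k x
  rw [Ek_apply]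
  refine integral_small (by positivity) hδ (fun s => W.rk_bound hM _) hBm hBv fun s hs => ?_
  obtain ⟨P, hP, hT⟩ := hB s hs
  have h1 := hω x P (lt_of_le_of_lt (D_mono hN x P) hP)
  have h2 : e (Function.update x k s) = e x := he.update hN x s
  rw [rk_apply, gk_apply, hT, h2]
  rw [dist_eq_norm] at h1
  by_cases h3 : e x = 0
  · rw [h3, zero_sub, norm_neg, norm_mul, Complex.norm_real,
      Real.norm_of_nonneg (cut_nonneg _ _ _ _)]
    rw [h3, zero_sub, norm_neg] at h1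
    calc _ ≤ 1 * ‖e P‖ := mul_le_mul_of_nonneg_right (cut_le_one _ _ _ _) (norm_nonneg _)
      _ ≤ δ := by rw [one_mul]; exact h1
  · have h4 := hsupp x h3
    have h5 : Metric.infDist (W.Q (k + 1) (Function.update x k s)) L ≤ (5 - 1) * η := by
      have h6 := W.level_dist (hN.trans (Nat.le_succ k)) hb (Function.update x k s)
      have h7 : W.Q N (Function.update x k s) = W.Q N x := (W.dep N).update hN x s
      rw [h7] at h6
      have h8 := (abs_le.1 (infDist_lip L (W.Q (k + 1) (Function.update x k s)) (W.Q N x))).2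
      linarith
    rw [cut_one hη h5, Complex.ofReal_one, one_mul]
    exact h1

theorem gk_diff (hη : 0 < η) {M : ℝ} (hM : ∀ x, ‖e x‖ ≤ M) (hM0 : 0 ≤ M) (x : X) :
    ‖W.gk L η k e (W.Q (k + 1) x) - W.gk L η k e (W.q x)‖ ≤
      W.b (k + 1) / η * M + tol k * M := by
  have h1 : |W.Q (k + 1) x - W.q x| ≤ W.b (k + 1) := by
    rw [abs_sub_comm]; exact W.near (k + 1) x
  have h2 : ‖e‖ ≤ M := (ContinuousMap.norm_le _ hM0).2 hM
  rw [gk_apply, gk_apply]
  have h3 : (cut L η 5 (W.Q (k + 1) x) : ℂ) * W.T k e (W.Q (k + 1) x) -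
      (cut L η 5 (W.q x) : ℂ) * W.T k e (W.q x) =
      ((cut L η 5 (W.Q (k + 1) x) - cut L η 5 (W.q x) : ℝ) : ℂ) * W.T k e (W.Q (k + 1) x) +
      (cut L η 5 (W.q x) : ℂ) * (W.T k e (W.Q (k + 1) x) - W.T k e (W.q x)) := by
    push_cast; ring
  rw [h3]
  refine (norm_add_le _ _).trans (add_le_add ?_ ?_)
  · rw [norm_mul, Complex.norm_real, Real.norm_eq_abs]
    refine mul_le_mul ((cut_lip hη _ _).trans (div_le_div_of_nonneg_right h1 hη.le))
      (W.T_bound ⟨x, W.step_le k x⟩ e hM) (norm_nonneg _)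
      (div_nonneg (W.bpos _).le hη.le)
  · rw [norm_mul, Complex.norm_real, Real.norm_of_nonneg (cut_nonneg _ _ _ _)]
    calc _ ≤ 1 * (tol k * ‖e‖) := mul_le_mul (cut_le_one _ _ _ _) (W.md k _ _ h1 e)
          (norm_nonneg _) zero_le_one
      _ ≤ tol k * M := by
          rw [one_mul]; exact mul_le_mul_of_nonneg_left h2 (tol_pos k).le

theorem q_near (k : ℕ) (x : X) : ∃ y, |W.q x - W.Q k y| ≤ W.b k := ⟨x, W.near k x⟩

/-- One more term. -/
theorem induct_step {N : ℕ} (he : Dep N e) (hη : 0 < η) (hb : W.b N ≤ η / 2)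
    (hsupp : ∀ x, e x ≠ 0 → Metric.infDist (W.Q N x) L < 2 * η) {K : Set ℝ}
    (hK : ∀ t ∈ K, 10 * η ≤ Metric.infDist t L) {M δ : ℝ} (hM : ∀ x, ‖e x‖ ≤ M) (hM0 : 0 ≤ M)
    (hδ : 0 < δ) {R : ℝ}
    (hstep : ∀ k : ℕ,
      ∀ S r : C(X, ℂ), Dep k S → Dep (k + 1) r → (∀ x, ‖S x‖ ≤ R) → (∀ x, ‖r x‖ ≤ 4 * M) →
      Ek k r = 0 → ∃ h : C(X, ℂ), Dep (k + 1) h ∧ (∀ u : C(X, ℂ), Dep k u → u * h ∈ A) ∧
      ∀ x, ‖S x + r x - h x‖ ≤ R + δ)
    (hN : N ≤ k) (hω : ∀ x y, D N x y < tol k → dist (e x) (e y) ≤ δ)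
    (ht : 2 * M * tol k ≤ δ) (hbk : W.b (k + 1) / η * M ≤ δ)
    {S : C(X, ℂ)} (hS : Dep k S) (hSR : ∀ x, ‖S x‖ ≤ R) :
    ∃ h S' : C(X, ℂ), Dep (k + 1) S' ∧ (∀ x, ‖S' x‖ ≤ R + δ) ∧ h ∈ A ∧
      (∀ x, W.q x ∈ K → h x = 0) ∧
      ∀ x, ‖e x - W.gk L η k e (W.q x) - h x - (S' x - S x)‖ ≤ 4 * δ := by
  set r : C(X, ℂ) := W.rk L η k e with hr
  set r0 : C(X, ℂ) := r - Ek k r with hr0
  have hrdep : Dep (k + 1) r := W.rk_dep he hN
  have hEdep : Dep k (Ek k r) := Ek_dep hrdep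
  have hr0dep : Dep (k + 1) r0 := by
    intro x y h
    rw [hr0, ContinuousMap.sub_apply, ContinuousMap.sub_apply, hrdep x y h,
      (hEdep.mono (Nat.le_succ k)) x y h]
  have hr0b : ∀ x, ‖r0 x‖ ≤ 4 * M := by
    intro x
    have h1 : ‖r x‖ ≤ 2 * M := W.rk_bound hM x
    have h2 : ‖Ek k r x‖ ≤ 2 * M := norm_Ek_le fun s => W.rk_bound hM _
    calc ‖r0 x‖ ≤ ‖r x‖ + ‖Ek k r x‖ := norm_sub_le _ _
      _ ≤ 4 * M := by linarith
  have hE0 : Ek k r0 = 0 := by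
    rw [hr0, Ek_sub, Ek_of_dep hEdep, sub_self]
  obtain ⟨h1, h1dep, h1A, h1b⟩ := hstep k S r0 hS hr0dep hSR hr0b hE0
  let χ : C(X, ℂ) := ⟨fun x => (cut L η 8 (W.Q k x) : ℂ),
    Complex.continuous_ofReal.comp ((continuous_cut L η 8).comp (W.Q k).continuous)⟩
  have hχ : ∀ x, χ x = (cut L η 8 (W.Q k x) : ℂ) := fun _ => rfl
  have hχd : Dep k χ := by
    intro x y h
    rw [hχ, hχ, W.dep k x y h]
  have hr0z : ∀ x, cut L η 8 (W.Q k x) < 1 → r0 x = 0 := by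
    intro x hx
    have h2 : 7 * η < Metric.infDist (W.Q k x) L := by
      by_contra h3
      push Not at h3
      have := cut_one (c := 8) hη (h3.trans (by linarith : 7 * η ≤ (8 - 1) * η))
      linarith
    have h3 : ∀ s, r (Function.update x k s) = 0 := by
      intro s
      by_contra h4
      have h5 := W.rk_supp hN hη hb hsupp h4
      have h6 : W.Q k (Function.update x k s) = W.Q k x := (W.dep k).update le_rfl x s
      rw [h6] at h5
      linarith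
    have h4 : r x = 0 := by
      have := h3 (x k)
      rwa [Function.update_eq_self] at this
    rw [hr0, ContinuousMap.sub_apply, h4, Ek_apply]
    simp_rw [h3]
    simp
  refine ⟨χ * h1, S + r0 - χ * h1, ?_, ?_, h1A χ hχd, ?_, ?_⟩
  · intro x y h
    simp only [ContinuousMap.sub_apply, ContinuousMap.add_apply, ContinuousMap.mul_apply,
      (hS.mono (Nat.le_succ k)) x y h, hr0dep x y h, (hχd.mono (Nat.le_succ k)) x y h,
      h1dep x y h]
  · intro x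
    have hc0 := cut_nonneg L η 8 (W.Q k x)
    have hc1 := cut_le_one L η 8 (W.Q k x)
    simp only [ContinuousMap.sub_apply, ContinuousMap.add_apply, ContinuousMap.mul_apply, hχ]
    rcases hc1.lt_or_eq with h2 | h2
    · have h3 := hr0z x h2
      have h4 : S x + r0 x - (cut L η 8 (W.Q k x) : ℂ) * h1 x =
          ((1 - cut L η 8 (W.Q k x) : ℝ) : ℂ) * S x +
          (cut L η 8 (W.Q k x) : ℂ) * (S x + r0 x - h1 x) := by
        rw [h3]; push_cast; ring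
      rw [h4]
      calc _ ≤ ‖((1 - cut L η 8 (W.Q k x) : ℝ) : ℂ) * S x‖ +
            ‖(cut L η 8 (W.Q k x) : ℂ) * (S x + r0 x - h1 x)‖ := norm_add_le _ _
        _ = (1 - cut L η 8 (W.Q k x)) * ‖S x‖ +
            cut L η 8 (W.Q k x) * ‖S x + r0 x - h1 x‖ := by
            rw [norm_mul, norm_mul, Complex.norm_real, Complex.norm_real,
              Real.norm_of_nonneg (by linarith), Real.norm_of_nonneg hc0]
        _ ≤ (1 - cut L η 8 (W.Q k x)) * (R + δ) + cut L η 8 (W.Q k x) * (R + δ) := by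
            refine add_le_add (mul_le_mul_of_nonneg_left ?_ (by linarith))
              (mul_le_mul_of_nonneg_left (h1b x) hc0)
            linarith [hSR x]
        _ = R + δ := by ring
    · rw [h2, Complex.ofReal_one, one_mul]
      exact h1b x
  · intro x hx
    have h2 := hK _ hx
    have h3 := W.near k x
    have h4 := W.b_anti hN
    have h5 := (abs_le.1 (infDist_lip L (W.q x) (W.Q k x))).2
    rw [ContinuousMap.mul_apply, hχ, cut_zero hη (by linarith)]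
    simp
  · intro x
    have h2 : e x - W.gk L η k e (W.q x) - (χ * h1) x - ((S + r0 - χ * h1) x - S x) =
        (W.gk L η k e (W.Q (k + 1) x) - W.gk L η k e (W.q x)) + Ek k r x := by
      have h3 : r x = e x - W.gk L η k e (W.Q (k + 1) x) := rfl
      simp only [ContinuousMap.sub_apply, ContinuousMap.add_apply, hr0, h3]
      ring
    rw [h2]
    have h4 := W.gk_diff (L := L) (k := k) hη hM hM0 x
    have h5 : ‖Ek k r x‖ ≤ δ + 2 * M * tol k :=
      W.rk_mean he hN hη hb hsupp hM hM0 hδ.le hω x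
    have h6 : tol k * M ≤ δ := by
      have : 0 ≤ tol k * M := mul_nonneg (tol_pos k).le hM0
      linarith
    calc _ ≤ ‖W.gk L η k e (W.Q (k + 1) x) - W.gk L η k e (W.q x)‖ + ‖Ek k r x‖ :=
          norm_add_le _ _
      _ ≤ 4 * δ := by linarith

/-- Many terms. -/
theorem many_terms {N : ℕ} (he : Dep N e) (hη : 0 < η) (hb : W.b N ≤ η / 2)
    (hsupp : ∀ x, e x ≠ 0 → Metric.infDist (W.Q N x) L < 2 * η) {K : Set ℝ}
    (hK : ∀ t ∈ K, 10 * η ≤ Metric.infDist t L) {M δ : ℝ} (hM : ∀ x, ‖e x‖ ≤ M) (hM0 : 0 ≤ M)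
    (hδ : 0 < δ) {R0 : ℝ} (hR0 : 0 < R0)
    (hstep : ∀ R ≥ R0, ∀ k : ℕ,
      ∀ S r : C(X, ℂ), Dep k S → Dep (k + 1) r → (∀ x, ‖S x‖ ≤ R) → (∀ x, ‖r x‖ ≤ 4 * M) →
      Ek k r = 0 → ∃ h : C(X, ℂ), Dep (k + 1) h ∧ (∀ u : C(X, ℂ), Dep k u → u * h ∈ A) ∧
      ∀ x, ‖S x + r x - h x‖ ≤ R + δ)
    {p : ℝ} (hpL : p ∈ L) {c : ℂ}
    (hp : ∃ᶠ k in Filter.atTop, ‖W.T k e p - c‖ ≤ δ) (n : ℕ) :
    ∃ (m : ℕ) (S a : C(X, ℂ)) (G : C(ℝ, ℂ)), Dep m S ∧ (∀ x, ‖S x‖ ≤ R0 + n * δ) ∧ a ∈ A ∧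
      (∀ x, W.q x ∈ K → a x = 0) ∧ (∀ t ∈ K, G t = 0) ∧ (∀ x, ‖G (W.q x)‖ ≤ n * M) ∧
      ((∀ x, (e x).im = 0) → ∀ x, (G (W.q x)).im = 0) ∧ ‖G p - n * c‖ ≤ n * δ ∧
      ∀ x, ‖n * e x - G (W.q x) - a x - S x‖ ≤ n * (4 * δ) := by
  induction n with
  | zero =>
    refine ⟨0, 0, 0, 0, fun _ _ _ => rfl, ?_, A.zero_mem, ?_, ?_, ?_, ?_, ?_, ?_⟩ <;>
      simp [hR0.le]
  | succ n ih =>
    obtain ⟨m, S, a, G, hS, hSR, ha, haK, hGK, hGb, hGr, hGp, hG⟩ := ih
    -- choose a good level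
    obtain ⟨δ', hδ', hω⟩ := unif_dep e.continuous he hδ
    obtain ⟨k1, hk1⟩ := exists_tol_le hδ'
    obtain ⟨k2, hk2⟩ := exists_tol_le (ε := δ / (2 * M + 1)) (by positivity)
    obtain ⟨k3, hk3⟩ := W.exists_b_le (ε := δ * η / (M + 1)) (by positivity)
    obtain ⟨k, hk, hkp⟩ := (Filter.frequently_atTop.1 hp) (max (max N m) (max k1 (max k2 k3)))
    have hNk : N ≤ k := ((le_max_left _ _).trans (le_max_left _ _)).trans hk
    have hmk : m ≤ k := ((le_max_right _ _).trans (le_max_left _ _)).trans hk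
    have hk1' : k1 ≤ k := ((le_max_left _ _).trans (le_max_right _ _)).trans hk
    have hk2' : k2 ≤ k :=
      ((le_max_left _ _).trans ((le_max_right _ _).trans (le_max_right _ _))).trans hk
    have hk3' : k3 ≤ k :=
      ((le_max_right _ _).trans ((le_max_right _ _).trans (le_max_right _ _))).trans hk
    have c1 : ∀ x y, D N x y < tol k → dist (e x) (e y) ≤ δ := fun x y h =>
      (hω x y (lt_of_lt_of_le h (hk1 k hk1'))).le
    have c2 : 2 * M * tol k ≤ δ := by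
      have := hk2 k hk2'
      rw [le_div_iff₀ (by positivity)] at this
      have h0 := (tol_pos k).le
      nlinarith
    have c3 : W.b (k + 1) / η * M ≤ δ := by
      have := hk3 (k + 1) (hk3'.trans (Nat.le_succ k))
      rw [le_div_iff₀ (by positivity)] at this
      rw [div_mul_eq_mul_div, div_le_iff₀ hη]
      have h0 := (W.bpos (k + 1)).le
      nlinarith
    obtain ⟨h, S', hS'd, hS'b, hhA, hhK, hh⟩ := W.induct_step he hη hb hsupp hK hM hM0 hδ
      (hstep (R0 + n * δ) (by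
        have : 0 ≤ (n : ℝ) * δ := by positivity
        linarith)) hNk c1 c2 c3 (hS.mono hmk) hSR
    refine ⟨k + 1, S', a + h, G + W.gk L η k e, hS'd, ?_, A.add_mem ha hhA, ?_, ?_, ?_, ?_, ?_,
      ?_⟩
    · intro x
      refine (hS'b x).trans (le_of_eq ?_)
      push_cast; ring
    · intro x hx
      rw [ContinuousMap.add_apply, haK x hx, hhK x hx, add_zero]
    · intro t ht
      have h1 := hK t ht
      rw [ContinuousMap.add_apply, hGK t ht, gk_apply, cut_zero hη (by linarith)]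
      simp
    · intro x
      rw [ContinuousMap.add_apply]
      refine (norm_add_le _ _).trans ((add_le_add (hGb x)
        (W.gk_bound (W.q_near k x) hM)).trans (le_of_eq ?_))
      push_cast; ring
    · intro hre x
      rw [ContinuousMap.add_apply, Complex.add_im, hGr hre x, gk_apply, Complex.im_ofReal_mul,
        W.T_real (W.q_near k x) e hre]
      ring
    · have h1 : cut L η 5 p = 1 := by
        refine cut_one hη ?_
        rw [Metric.infDist_zero_of_mem hpL]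
        positivity
      rw [ContinuousMap.add_apply, gk_apply, h1, Complex.ofReal_one, one_mul]
      have h2 : G p + W.T k e p - ((n + 1 : ℕ) : ℂ) * c = (G p - n * c) + (W.T k e p - c) := by
        push_cast; ring
      rw [h2]
      refine (norm_add_le _ _).trans ((add_le_add hGp hkp).trans (le_of_eq ?_))
      push_cast; ring
    · intro x
      have h2 : ((n + 1 : ℕ) : ℂ) * e x - (G + W.gk L η k e) (W.q x) - (a + h) x - S' x =
          (n * e x - G (W.q x) - a x - S x) +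
          (e x - W.gk L η k e (W.q x) - h x - (S' x - S x)) := by
        simp only [ContinuousMap.add_apply]
        push_cast; ring
      rw [h2]
      refine (norm_add_le _ _).trans ((add_le_add (hG x) (hh x)).trans (le_of_eq ?_))
      push_cast; ring

/-- The two point functional at a point of the line. -/
theorem exists_two_point (x0 : X) : ∃ (z z' : X) (τ : ℝ), 0 ≤ τ ∧ τ ≤ 1 ∧ W.q z = W.q x0 ∧
    W.q z' = W.q x0 ∧ ∀ (e : C(X, ℂ)) (ε : ℝ), 0 < ε → ∃ᶠ k in Filter.atTop,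
      ‖W.T k e (W.q x0) - (((1 - τ : ℝ) : ℂ) * e z + (τ : ℂ) * e z')‖ ≤ ε := by
  choose y y' τ h0 h1 hy hy' hT using fun k => W.conv k (W.q x0) (W.q_near k x0)
  set 𝒰 : Ultrafilter ℕ := Filter.hyperfilter ℕ with h𝒰
  have hle : (𝒰 : Filter ℕ) ≤ Filter.atTop := by
    rw [h𝒰, ← Nat.cofinite_eq_atTop]
    exact Filter.hyperfilter_le_cofinite
  obtain ⟨z, -, hz⟩ := isCompact_univ.ultrafilter_le_nhds (𝒰.map y) (by simp)
  obtain ⟨z', -, hz'⟩ := isCompact_univ.ultrafilter_le_nhds (𝒰.map y') (by simp)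
  obtain ⟨τ0, hτ0, hτ⟩ := (isCompact_Icc (a := (0 : ℝ)) (b := 1)).ultrafilter_le_nhds (𝒰.map τ)
    (by
      rw [Filter.le_principal_iff]
      show τ ⁻¹' Set.Icc 0 1 ∈ 𝒰
      exact Filter.mem_of_superset Filter.univ_mem fun k _ => ⟨h0 k, h1 k⟩)
  have hz1 : Filter.Tendsto y 𝒰 (𝓝 z) := hz
  have hz2 : Filter.Tendsto y' 𝒰 (𝓝 z') := hz'
  have hτ1 : Filter.Tendsto τ 𝒰 (𝓝 τ0) := hτ
  have hb : Filter.Tendsto W.b 𝒰 (𝓝 0) := by
    refine Filter.Tendsto.mono_left ?_ hle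
    rw [Metric.tendsto_atTop]
    intro ε hε
    obtain ⟨k0, hk0⟩ := W.exists_b_le (half_pos hε)
    refine ⟨k0, fun k hk => ?_⟩
    rw [Real.dist_eq, sub_zero, abs_of_pos (W.bpos k)]
    linarith [hk0 k hk]
  have hq : ∀ (w : ℕ → X) (w0 : X), Filter.Tendsto w 𝒰 (𝓝 w0) →
      (∀ k, |W.Q k (w k) - W.q x0| ≤ 2 * W.b k) → W.q w0 = W.q x0 := by
    intro w w0 hw hk
    have h2 : Filter.Tendsto (fun k => W.q (w k)) 𝒰 (𝓝 (W.q w0)) :=
      (W.q.continuous.tendsto w0).comp hw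
    have h3 : Filter.Tendsto (fun k => W.q (w k)) 𝒰 (𝓝 (W.q x0)) := by
      rw [tendsto_iff_dist_tendsto_zero]
      have h4 : Filter.Tendsto (fun k => 3 * W.b k) 𝒰 (𝓝 0) := by
        have := hb.const_mul 3
        simpa using this
      refine squeeze_zero (fun _ => dist_nonneg) (fun k => ?_) h4
      rw [Real.dist_eq]
      have h5 := W.near k (w k)
      calc |W.q (w k) - W.q x0| = |(W.q (w k) - W.Q k (w k)) + (W.Q k (w k) - W.q x0)| := by
            congr 1; ring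
        _ ≤ |W.q (w k) - W.Q k (w k)| + |W.Q k (w k) - W.q x0| := abs_add_le _ _
        _ ≤ 3 * W.b k := by linarith [hk k]
    exact tendsto_nhds_unique h2 h3
  refine ⟨z, z', τ0, hτ0.1, hτ0.2, hq y z hz1 hy, hq y' z' hz2 hy', fun e ε hε => ?_⟩
  have h5 : Filter.Tendsto (fun k => W.T k e (W.q x0)) 𝒰
      (𝓝 (((1 - τ0 : ℝ) : ℂ) * e z + (τ0 : ℂ) * e z')) := by
    have h6 : (fun k => W.T k e (W.q x0)) =
        fun k => ((1 - τ k : ℝ) : ℂ) * e (y k) + (τ k : ℂ) * e (y' k) := funext fun k => hT k e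
    rw [h6]
    have h7 : Filter.Tendsto (fun k => ((1 - τ k : ℝ) : ℂ)) 𝒰 (𝓝 ((1 - τ0 : ℝ) : ℂ)) :=
      (Complex.continuous_ofReal.tendsto _).comp (tendsto_const_nhds.sub hτ1)
    have h8 : Filter.Tendsto (fun k => (τ k : ℂ)) 𝒰 (𝓝 (τ0 : ℂ)) :=
      (Complex.continuous_ofReal.tendsto _).comp hτ1
    exact (h7.mul ((e.continuous.tendsto z).comp hz1)).add
      (h8.mul ((e.continuous.tendsto z').comp hz2))
  have h6 : ∀ᶠ k in (𝒰 : Filter ℕ),
      ‖W.T k e (W.q x0) - (((1 - τ0 : ℝ) : ℂ) * e z + (τ0 : ℂ) * e z')‖ ≤ ε := by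
    have := (Metric.tendsto_nhds.1 h5) ε hε
    refine this.mono fun k hk => ?_
    rw [dist_eq_norm] at hk
    exact hk.le
  exact h6.frequently.filter_mono hle

/-- The key approximation lemma. -/
theorem KL {K : Set ℝ} (hK : IsClosed K) {x0 : X} (hp : W.q x0 ∉ K) {z z' : X} {τ : ℝ}
    (hτ0 : 0 ≤ τ) (hτ1 : τ ≤ 1)
    (hz : ∀ (e : C(X, ℂ)) (ε : ℝ), 0 < ε → ∃ᶠ k in Filter.atTop,
      ‖W.T k e (W.q x0) - (((1 - τ : ℝ) : ℂ) * e z + (τ : ℂ) * e z')‖ ≤ ε)
    (e : C(X, ℂ)) (he : ∀ x, W.q x ∈ K → e x = 0) {ε : ℝ} (hε : 0 < ε) :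
    ∃ (g : C(ℝ, ℂ)) (a : C(X, ℂ)), a ∈ A ∧ (∀ t ∈ K, g t = 0) ∧
      (∀ x, W.q x ∈ K → a x = 0) ∧ (∀ x, ‖g (W.q x)‖ ≤ ‖e‖ + ε) ∧
      ((∀ x, (e x).im = 0) → ∀ x, (g (W.q x)).im = 0) ∧
      ‖g (W.q x0) - (((1 - τ : ℝ) : ℂ) * e z + (τ : ℂ) * e z')‖ ≤ ε ∧
      ∀ x, ‖e x - g (W.q x) - a x‖ ≤ ε := by
  -- the compact set
  set L : Set ℝ := insert (W.q x0) (W.q '' {x | ε / 8 ≤ ‖e x‖}) with hL
  have hLc : IsCompact L := by
    refine IsCompact.insert (IsCompact.image ?_ W.q.continuous) _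
    exact (isClosed_le continuous_const e.continuous.norm).isCompact
  have hpL : W.q x0 ∈ L := Set.mem_insert _ _
  have hLK : Disjoint L K := by
    rw [Set.disjoint_left]
    rintro t (rfl | ⟨x, hx, rfl⟩) htK
    · exact hp htK
    · have h1 := he x htK
      have h2 : ε / 8 ≤ ‖e x‖ := hx
      rw [h1, norm_zero] at h2
      linarith
  obtain ⟨η, hη, hηK⟩ := exists_margin hLc ⟨_, hpL⟩ hK hLK
  -- the approximation
  obtain ⟨N0, e0, he0, he0e, he0r⟩ := exists_dep_approx' e (ε := ε / 8) (by positivity)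
  obtain ⟨k0, hk0⟩ := W.exists_b_le (half_pos hη)
  set N : ℕ := max N0 k0 with hN
  have hbN : W.b N ≤ η / 2 := hk0 N (le_max_right _ _)
  let e' : C(X, ℂ) := ⟨fun x => (cut L η 2 (W.Q N x) : ℂ) * e0 x,
    (Complex.continuous_ofReal.comp ((continuous_cut L η 2).comp (W.Q N).continuous)).mul
      e0.continuous⟩
  have he'x : ∀ x, e' x = (cut L η 2 (W.Q N x) : ℂ) * e0 x := fun _ => rfl
  have he'd : Dep N e' := by
    intro x y h
    rw [he'x, he'x, W.dep N x y h, (he0.mono (le_max_left N0 k0)) x y h]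
  have hsupp : ∀ x, e' x ≠ 0 → Metric.infDist (W.Q N x) L < 2 * η := by
    intro x hx
    by_contra h
    push Not at h
    exact hx (by rw [he'x, cut_zero hη h]; simp)
  have he0b : ∀ x, ‖e0 x‖ ≤ ‖e x‖ + ε / 8 := by
    intro x
    have h1 := he0e x
    calc ‖e0 x‖ = ‖e x - (e x - e0 x)‖ := by congr 1; ring
      _ ≤ ‖e x‖ + ‖e x - e0 x‖ := norm_sub_le _ _
      _ ≤ ‖e x‖ + ε / 8 := by linarith
  have he'0 : ∀ x, ‖e' x‖ ≤ ‖e0 x‖ := by
    intro x
    rw [he'x, norm_mul, Complex.norm_real, Real.norm_of_nonneg (cut_nonneg _ _ _ _)]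
    calc _ ≤ 1 * ‖e0 x‖ := mul_le_mul_of_nonneg_right (cut_le_one _ _ _ _) (norm_nonneg _)
      _ = ‖e0 x‖ := one_mul _
  have hee' : ∀ x, ‖e x - e' x‖ ≤ 3 * ε / 8 := by
    intro x
    by_cases h : Metric.infDist (W.Q N x) L ≤ η
    · have h1 : e' x = e0 x := by
        rw [he'x, cut_one hη (by linarith : Metric.infDist (W.Q N x) L ≤ (2 - 1) * η)]
        simp
      rw [h1]
      exact (he0e x).trans (by linarith)
    · push Not at h
      have h1 : ‖e x‖ < ε / 8 := by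
        by_contra h2
        push Not at h2
        have h3 : W.q x ∈ L := Set.mem_insert_of_mem _ ⟨x, h2, rfl⟩
        have h4 := (abs_le.1 (infDist_lip L (W.Q N x) (W.q x))).2
        rw [Metric.infDist_zero_of_mem h3] at h4
        have h5 := W.near N x
        rw [abs_sub_comm] at h5
        linarith
      have h2 := he0b x
      have h3 := he'0 x
      calc ‖e x - e' x‖ ≤ ‖e x‖ + ‖e' x‖ := norm_sub_le _ _
        _ ≤ 3 * ε / 8 := by linarith
  set M : ℝ := ‖e‖ + ε / 8 with hM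
  have hM0 : 0 ≤ M := by positivity
  have he'M : ∀ x, ‖e' x‖ ≤ M := fun x =>
    (he'0 x).trans ((he0b x).trans (by linarith [e.norm_coe_le_norm x]))
  have he'r : (∀ x, (e x).im = 0) → ∀ x, (e' x).im = 0 := by
    intro h x
    rw [he'x, Complex.im_ofReal_mul, he0r h x, mul_zero]
  set δ : ℝ := ε / 12 with hδ
  have hδ0 : 0 < δ := by positivity
  obtain ⟨R0, hR0, hstep⟩ := one_step hδ0 (by positivity : (0 : ℝ) ≤ 4 * M)
  obtain ⟨n, hn⟩ := exists_nat_gt (R0 / δ)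
  have hn0 : (0 : ℝ) < n := lt_trans (by positivity) hn
  have hnR : R0 ≤ n * δ := by
    rw [div_lt_iff₀ hδ0] at hn
    exact hn.le
  obtain ⟨m, S, a, G, hS, hSR, ha, haK, hGK, hGb, hGr, hGp, hG⟩ :=
    W.many_terms he'd hη hbN hsupp hηK he'M hM0 hδ0 hR0 hstep hpL (hz e' δ hδ0) n
  have hnc : ((n : ℝ) : ℂ) ≠ 0 := by exact_mod_cast hn0.ne'
  have hnc' : ((n : ℕ) : ℂ) ≠ 0 := by exact_mod_cast hn0.ne'
  refine ⟨((n : ℂ)⁻¹) • G, ((n : ℂ)⁻¹) • a, A.smul_mem ha _, ?_, ?_, ?_, ?_, ?_, ?_⟩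
  · intro t ht
    rw [ContinuousMap.smul_apply, hGK t ht, smul_zero]
  · intro x hx
    rw [ContinuousMap.smul_apply, haK x hx, smul_zero]
  · intro x
    rw [ContinuousMap.smul_apply, smul_eq_mul, norm_mul, norm_inv, Complex.norm_natCast]
    have h1 := hGb x
    rw [inv_mul_le_iff₀ hn0]
    refine h1.trans ?_
    refine mul_le_mul_of_nonneg_left ?_ hn0.le
    linarith
  · intro h x
    have h1 := hGr (he'r h) x
    rw [ContinuousMap.smul_apply, smul_eq_mul]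
    have h2 : ((n : ℂ)⁻¹) = (((n : ℝ)⁻¹ : ℝ) : ℂ) := by push_cast; rfl
    rw [h2, Complex.im_ofReal_mul, h1, mul_zero]
  · have h1 : ((n : ℂ)⁻¹ • G) (W.q x0) - (((1 - τ : ℝ) : ℂ) * e z + (τ : ℂ) * e z') =
        (n : ℂ)⁻¹ * (G (W.q x0) - n * (((1 - τ : ℝ) : ℂ) * e' z + (τ : ℂ) * e' z')) -
        (((1 - τ : ℝ) : ℂ) * (e z - e' z) + (τ : ℂ) * (e z' - e' z')) := by
      rw [ContinuousMap.smul_apply, smul_eq_mul]
      field_simp
      ring
    rw [h1]
    have h2 : ‖(n : ℂ)⁻¹ * (G (W.q x0) - n * (((1 - τ : ℝ) : ℂ) * e' z + (τ : ℂ) * e' z'))‖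
        ≤ δ := by
      rw [norm_mul, norm_inv, Complex.norm_natCast, inv_mul_le_iff₀ hn0]
      exact hGp
    have h3 : ‖((1 - τ : ℝ) : ℂ) * (e z - e' z) + (τ : ℂ) * (e z' - e' z')‖ ≤ 3 * ε / 8 := by
      calc _ ≤ ‖((1 - τ : ℝ) : ℂ) * (e z - e' z)‖ + ‖(τ : ℂ) * (e z' - e' z')‖ :=
            norm_add_le _ _
        _ = (1 - τ) * ‖e z - e' z‖ + τ * ‖e z' - e' z'‖ := by
            rw [norm_mul, norm_mul, Complex.norm_real, Complex.norm_real,
              Real.norm_of_nonneg (by linarith), Real.norm_of_nonneg hτ0]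
        _ ≤ (1 - τ) * (3 * ε / 8) + τ * (3 * ε / 8) :=
            add_le_add (mul_le_mul_of_nonneg_left (hee' z) (by linarith))
              (mul_le_mul_of_nonneg_left (hee' z') hτ0)
        _ = 3 * ε / 8 := by ring
    calc _ ≤ δ + 3 * ε / 8 := (norm_sub_le _ _).trans (add_le_add h2 h3)
      _ ≤ ε := by rw [hδ]; linarith
  · intro x
    have h1 : e x - ((n : ℂ)⁻¹ • G) (W.q x) - ((n : ℂ)⁻¹ • a) x =
        (e x - e' x) + (n : ℂ)⁻¹ * ((n * e' x - G (W.q x) - a x - S x) + S x) := by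
      rw [ContinuousMap.smul_apply, ContinuousMap.smul_apply, smul_eq_mul, smul_eq_mul]
      field_simp
      ring
    rw [h1]
    have h2 : ‖(n : ℂ)⁻¹ * ((n * e' x - G (W.q x) - a x - S x) + S x)‖ ≤ 6 * δ := by
      rw [norm_mul, norm_inv, Complex.norm_natCast, inv_mul_le_iff₀ hn0]
      calc _ ≤ n * (4 * δ) + (R0 + n * δ) := (norm_add_le _ _).trans (add_le_add (hG x) (hSR x))
        _ ≤ n * (6 * δ) := by linarith
    calc _ ≤ 3 * ε / 8 + 6 * δ := (norm_add_le _ _).trans (add_le_add (hee' x) h2)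
      _ ≤ ε := by rw [hδ]; linarith

end Tower

end Pool.Agent.Helper53_Dir
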