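import Pool.Agent.Helper53_Dir.Tools

set_option autoImplicit false

open MeasureTheory Topology
open scoped ComplexConjugate

namespace Pool.Agent.Helper53_Dir

theorem norm_circle_le (s : UnitAddCircle) : ‖s‖ ≤ 1 / 2 := by
  obtain ⟨t, rfl⟩ := QuotientAddGroup.mk_surjective s
  have h3 : ‖(t : UnitAddCircle)‖ = |t - round t| := UnitAddCircle.norm_eq
  show ‖(t : UnitAddCircle)‖ ≤ 1 / 2
  rw [h3]
  exact abs_sub_round t

/-- partition of unity depending on the first `k` coordinates -/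
theorem exists_partition (k : ℕ) {δ : ℝ} (hδ : 0 < δ) :
    ∃ (m : ℕ) (P : ℕ → X) (κ : ℕ → X → ℝ), 0 < m ∧ (∀ i x, 0 ≤ κ i x) ∧
      (∀ i, Continuous (κ i)) ∧ (∀ i, Dep k (κ i)) ∧ (∀ i x, κ i x ≠ 0 → D k x (P i) < δ) ∧
      (∀ x, ∑ i ∈ Finset.range m, κ i x = 1) := by
  obtain ⟨m, P, hP⟩ := exists_net k hδ
  have hm : 0 < m := by
    obtain ⟨i, hi, -⟩ := hP 0
    omega
  let v : ℕ → X → ℝ := fun i x => max 0 (δ - D k x (P i))
  have hv : ∀ i x, v i x = max 0 (δ - D k x (P i)) := fun _ _ => rfl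
  have hv0 : ∀ i x, 0 ≤ v i x := fun i x => le_max_left _ _
  have hvpos : ∀ i x, v i x ≠ 0 → D k x (P i) < δ := by
    intro i x h
    by_contra h1
    exact h (max_eq_left (by linarith))
  have hvc : ∀ i, Continuous (v i) := fun i =>
    continuous_const.max (continuous_const.sub (continuous_D_left k (P i)))
  have hvd : ∀ i, Dep k (v i) := by
    intro i x y h
    rw [hv, hv, show D k x (P i) = D k y (P i) from D_dep k (P i) x y h]
  let V : X → ℝ := fun x => ∑ i ∈ Finset.range m, v i x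
  have hV : ∀ x, V x = ∑ i ∈ Finset.range m, v i x := fun _ => rfl
  have hVpos : ∀ x, 0 < V x := by
    intro x
    obtain ⟨i, hi, h⟩ := hP x
    refine Finset.sum_pos' (fun j _ => hv0 j x) ⟨i, Finset.mem_range.2 hi, ?_⟩
    exact lt_max_of_lt_right (by linarith)
  have hVc : Continuous V := continuous_finsetSum _ fun i _ => hvc i
  have hVd : Dep k V := by
    intro x y h
    exact Finset.sum_congr rfl fun i _ => hvd i x y h
  refine ⟨m, P, fun i x => v i x / V x, hm, fun i x => div_nonneg (hv0 i x) (hVpos x).le,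
    fun i => (hvc i).div hVc fun x => (hVpos x).ne', ?_, ?_, ?_⟩
  · intro i x y h
    show v i x / V x = v i y / V y
    rw [hvd i x y h, hVd x y h]
  · intro i x h
    refine hvpos i x fun h1 => h ?_
    show v i x / V x = 0
    rw [h1, zero_div]
  · intro x
    show ∑ i ∈ Finset.range m, v i x / V x = 1
    rw [← Finset.sum_div]
    exact div_self (hVpos x).ne'

theorem vol_a {η c : ℝ} (hη0 : 0 < η) (hη1 : η ≤ 1 / 4) :
    (volume : Measure UnitAddCircle).real
      {s | c < η + (1 - 2 * η) * (2 * ‖s‖) ∧ η + (1 - 2 * η) * (2 * ‖s‖) < c + η} ≤ 2 * η := by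
  have h12 : 0 < 1 - 2 * η := by linarith
  have hsub : {s : UnitAddCircle |
      c < η + (1 - 2 * η) * (2 * ‖s‖) ∧ η + (1 - 2 * η) * (2 * ‖s‖) < c + η} ⊆
      {s | (c - η) / (2 * (1 - 2 * η)) < ‖s‖ ∧ ‖s‖ < (c - η) / (2 * (1 - 2 * η)) + η} := by
    rintro s ⟨h2, h3⟩
    constructor
    · rw [div_lt_iff₀ (by positivity)]
      linarith
    · have : (c - η) / (2 * (1 - 2 * η)) + η =
          (c - η + η * (2 * (1 - 2 * η))) / (2 * (1 - 2 * η)) := by
        rw [add_div, mul_div_assoc, div_self (by positivity), mul_one]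
      rw [this, lt_div_iff₀ (by positivity)]
      nlinarith
  exact (measureReal_mono hsub).trans (vol_norm _ hη0.le)

/-- The weights with mostly 0/1 values. -/
theorem exists_weights (k : ℕ) {δ δ' : ℝ} (hδ : 0 < δ) (hδ' : 0 < δ') :
    ∃ (m : ℕ) (P : ℕ → X) (l : ℕ → X → ℝ), 0 < m ∧ (∀ i x, 0 ≤ l i x) ∧
      (∀ i, Continuous (l i)) ∧ (∀ i, Dep (k + 1) (l i)) ∧
      (∀ i x, l i x ≠ 0 → D k x (P i) < δ') ∧
      (∀ x, ∑ i ∈ Finset.range m, l i x = 1) ∧
      (∀ x, ∃ B : Set UnitAddCircle, MeasurableSet B ∧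
        (volume : Measure UnitAddCircle).real B ≤ δ ∧
        ∀ s, s ∉ B → ∃ i < m, l i (Function.update x k s) = 1 ∧
          ∀ j < m, j ≠ i → l j (Function.update x k s) = 0) := by
  obtain ⟨m, P, κ, hm, hκ0, hκc, hκd, hκP, hκ1⟩ := exists_partition k hδ'
  let σ : X → ℕ → ℝ := fun x j => ∑ i ∈ Finset.range j, κ i x
  have hσmono : ∀ x, Monotone (σ x) := by
    intro x i j hij
    exact Finset.sum_le_sum_of_subset_of_nonneg (Finset.range_mono hij) fun l _ _ => hκ0 l x
  have hσ0 : ∀ x, σ x 0 = 0 := fun x => Finset.sum_range_zero _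
  have hσm : ∀ x, σ x m = 1 := hκ1
  have hσc : ∀ j, Continuous fun x => σ x j := fun j =>
    continuous_finsetSum _ fun i _ => hκc i
  have hσd : ∀ j, Dep k (fun x => σ x j) := by
    intro j x y h
    exact Finset.sum_congr rfl fun i _ => hκd i x y h
  have hσκ : ∀ x j, σ x (j + 1) = σ x j + κ j x := fun x j => Finset.sum_range_succ _ _
  clear_value σ
  -- the margin
  obtain ⟨η, hη0, hη1, hη2⟩ : ∃ η : ℝ, 0 < η ∧ η ≤ 1 / 4 ∧ η * (4 * (m + 1)) ≤ δ := by
    refine ⟨min (1 / 4) (δ / (4 * (m + 1))), lt_min (by norm_num) (by positivity),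
      min_le_left _ _, ?_⟩
    have : min (1 / 4) (δ / (4 * (m + 1))) ≤ δ / (4 * (m + 1)) := min_le_right _ _
    rwa [le_div_iff₀ (by positivity)] at this
  let a : UnitAddCircle → ℝ := fun s => η + (1 - 2 * η) * (2 * ‖s‖)
  have ha : ∀ s, a s = η + (1 - 2 * η) * (2 * ‖s‖) := fun _ => rfl
  have hac : Continuous a :=
    continuous_const.add (continuous_const.mul (continuous_const.mul continuous_norm))
  have ha1 : ∀ s, η ≤ a s := by
    intro s
    have : 0 ≤ (1 - 2 * η) * (2 * ‖s‖) :=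
      mul_nonneg (by linarith) (by positivity)
    rw [ha]
    linarith
  have ha2 : ∀ s, a s ≤ 1 - η := by
    intro s
    have h1 := norm_circle_le s
    have : (1 - 2 * η) * (2 * ‖s‖) ≤ (1 - 2 * η) * 1 :=
      mul_le_mul_of_nonneg_left (by linarith) (by linarith)
    rw [ha]
    linarith
  have hvol : ∀ c, (volume : Measure UnitAddCircle).real {s | c < a s ∧ a s < c + η} ≤ 2 * η :=
    fun c => vol_a hη0 hη1
  clear_value a
  refine ⟨m, P, fun i x => lam (σ x) η (a (x k)) i, hm,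
    fun i x => lam_nonneg hη0 (hσmono x) i, ?_, ?_, ?_, fun x =>
    sum_lam hη0 (hσ0 x) (hσm x) (ha1 _) (ha2 _), ?_⟩
  · intro i
    have h1 : ∀ j, Continuous fun x : X => ramp ((a (x k) - σ x j) / η) := fun j =>
      continuous_ramp.comp
        (((hac.comp (continuous_apply k)).sub (hσc j)).div_const _)
    exact (h1 i).sub (h1 (i + 1))
  · intro i x y h
    have h1 : ∀ j, σ x j = σ y j := fun j => hσd j x y fun i hi => h i (by omega)
    show lam (σ x) η (a (x k)) i = lam (σ y) η (a (y k)) i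
    rw [funext h1, h k (Nat.lt_succ_self k)]
  · intro i x h
    have h1 := lt_of_lam_ne_zero (hσmono x) h
    rw [hσκ] at h1
    exact hκP i x (by linarith [h1] : (0 : ℝ) < κ i x).ne'
  · intro x
    refine ⟨⋃ j ∈ Finset.range (m + 1), {s | σ x j < a s ∧ a s < σ x j + η}, ?_, ?_, ?_⟩
    · refine IsOpen.measurableSet (isOpen_biUnion fun j _ => ?_)
      exact (isOpen_lt continuous_const hac).inter (isOpen_lt hac continuous_const)
    · calc _ ≤ ∑ j ∈ Finset.range (m + 1),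
            (volume : Measure UnitAddCircle).real {s | σ x j < a s ∧ a s < σ x j + η} :=
            measureReal_biUnion_finset_le _ _
        _ ≤ ∑ j ∈ Finset.range (m + 1), 2 * η := Finset.sum_le_sum fun j _ => hvol _
        _ = (m + 1) * (2 * η) := by
            rw [Finset.sum_const, Finset.card_range, nsmul_eq_mul]; push_cast; ring
        _ ≤ δ := by nlinarith
    · intro s hs
      have hgood : ∀ j ≤ m, ¬ (σ x j < a s ∧ a s < σ x j + η) := by
        intro j hj h
        exact hs (Set.mem_biUnion (Finset.mem_range.2 (by omega)) h)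
      obtain ⟨i, him, hi1, hi2⟩ := lam_good hη0 (hσmono x) (hσ0 x) (hσm x) (ha1 s) (ha2 s) hgood
      have hσu : σ (Function.update x k s) = σ x := by
        funext j
        exact (hσd j).update le_rfl x s
      have hlu : ∀ j, lam (σ (Function.update x k s)) η (a (Function.update x k s k)) j =
          lam (σ x) η (a s) j := by
        intro j
        rw [hσu, Function.update_self]
      refine ⟨i, him, ?_, fun j hj hji => ?_⟩
      · show lam (σ (Function.update x k s)) η (a (Function.update x k s k)) i = 1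
        rw [hlu, hi1]
      · show lam (σ (Function.update x k s)) η (a (Function.update x k s k)) j = 0
        rw [hlu, hi2 j hj hji]

/-- The lattice of nodes with labels. -/
theorem exists_lattice {m : ℕ} (hm : 0 < m) (Q : X → ℝ) (P : ℕ → X) {b : ℝ} (hb : 0 < b) :
    ∃ (M : ℝ) (n : ℕ → ℤ) (y : ℤ → X), 0 < M ∧ 1 / M ≤ b / 16 ∧
      (∀ i < m, |(n i : ℝ) / M - Q (P i)| ≤ b / 8) ∧ (∀ i < m, y (n i) = P i) ∧
      (∀ j : ℤ, (∃ x, |Q x - (j : ℝ) / M| ≤ b + 1 / M) →
        |Q (y j) - (j : ℝ) / M| ≤ b + 1 / M) := by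
  classical
  obtain ⟨M', hM'⟩ := exists_nat_gt (16 / b)
  have hM'0 : (0 : ℝ) < M' := lt_trans (by positivity) hM'
  have hM'b : 1 / (M' : ℝ) ≤ b / 16 := by
    rw [div_le_div_iff₀ hM'0 (by norm_num)]
    rw [div_lt_iff₀ hb] at hM'
    linarith
  have hm0 : (0 : ℝ) < m := by exact_mod_cast hm
  obtain ⟨M, hM⟩ : ∃ M : ℝ, M = m * M' := ⟨_, rfl⟩
  have hM0 : 0 < M := by rw [hM]; exact mul_pos hm0 hM'0
  have hMM' : 1 / M ≤ 1 / M' := by
    refine one_div_le_one_div_of_le hM'0 ?_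
    have : (1 : ℝ) ≤ m := by exact_mod_cast hm
    rw [hM]
    nlinarith
  let n : ℕ → ℤ := fun i => m * ⌊M' * Q (P i)⌋ + i
  have hn : ∀ i, n i = m * ⌊M' * Q (P i)⌋ + i := fun _ => rfl
  have hnx : ∀ i < m, |(n i : ℝ) / M - Q (P i)| ≤ b / 8 := by
    intro i hi
    have h1 := Int.floor_le ((M' : ℝ) * Q (P i))
    have h2 := Int.lt_floor_add_one ((M' : ℝ) * Q (P i))
    have h3 : ((n i : ℤ) : ℝ) = m * (⌊(M' : ℝ) * Q (P i)⌋ : ℝ) + i := by
      rw [hn]; push_cast; rfl
    have hi' : (i : ℝ) ≤ m := by exact_mod_cast hi.le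
    have hi0 : (0 : ℝ) ≤ i := Nat.cast_nonneg i
    have h4 : (n i : ℝ) / M - Q (P i) =
        ((⌊(M' : ℝ) * Q (P i)⌋ : ℝ) - M' * Q (P i)) / M' + i / M := by
      rw [h3, hM]
      field_simp
      ring
    have h5 : (i : ℝ) / M ≤ 1 / M' := by
      rw [hM, div_le_div_iff₀ (mul_pos hm0 hM'0) hM'0]
      nlinarith
    have h6 : 0 ≤ (i : ℝ) / M := by positivity
    have h7 : -(1 / (M' : ℝ)) ≤ ((⌊(M' : ℝ) * Q (P i)⌋ : ℝ) - M' * Q (P i)) / M' := by
      rw [← neg_div, div_le_div_iff_of_pos_right hM'0]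
      linarith
    have h8 : ((⌊(M' : ℝ) * Q (P i)⌋ : ℝ) - M' * Q (P i)) / M' ≤ 0 :=
      div_nonpos_of_nonpos_of_nonneg (by linarith) hM'0.le
    rw [h4, abs_le]
    constructor <;> linarith
  have hninj : ∀ i < m, ∀ j < m, n i = n j → i = j := by
    intro i hi j hj h
    have h1 : n i % (m : ℤ) = i := by
      rw [hn, Int.add_comm, Int.add_mul_emod_self_left]
      exact Int.emod_eq_of_lt (by omega) (by omega)
    have h2 : n j % (m : ℤ) = j := by
      rw [hn, Int.add_comm, Int.add_mul_emod_self_left]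
      exact Int.emod_eq_of_lt (by omega) (by omega)
    rw [h, h2] at h1
    exact_mod_cast h1.symm
  clear_value n
  -- labels
  have hlab : ∀ j : ℤ, ∃ y : X, (∀ i < m, n i = j → y = P i) ∧
      ((∃ x, |Q x - (j : ℝ) / M| ≤ b + 1 / M) → |Q y - (j : ℝ) / M| ≤ b + 1 / M) := by
    intro j
    by_cases h : ∃ i < m, n i = j
    · obtain ⟨i, hi, rfl⟩ := h
      refine ⟨P i, fun i' hi' h => by rw [hninj i' hi' i hi h], fun _ => ?_⟩
      rw [abs_sub_comm]
      refine (hnx i hi).trans ?_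
      have : 0 < 1 / M := by positivity
      linarith
    · by_cases h' : ∃ x, |Q x - (j : ℝ) / M| ≤ b + 1 / M
      · obtain ⟨x, hx⟩ := h'
        exact ⟨x, fun i hi hij => absurd ⟨i, hi, hij⟩ h, fun _ => hx⟩
      · exact ⟨0, fun i hi hij => absurd ⟨i, hi, hij⟩ h, fun h'' => absurd h'' h'⟩
  choose y hy1 hy2 using hlab
  exact ⟨M, n, y, hM0, hMM'.trans hM'b, hnx, fun i hi => hy1 _ i hi rfl, hy2⟩

/-- The revealing step. -/
theorem reveal_step (k : ℕ) (Q : C(X, ℝ)) (hQ : Dep k Q) {b δ : ℝ} (hb : 0 < b) (hδ : 0 < δ) :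
    ∃ (Q' : C(X, ℝ)) (b' : ℝ) (T : C(X, ℂ) → C(ℝ, ℂ)),
      Dep (k + 1) Q' ∧ (∀ x, |Q' x - Q x| ≤ b / 2) ∧ 0 < b' ∧ b' ≤ b / 2 ∧
      (∀ t, (∃ x, |t - Q x| ≤ b) → ∃ (y y' : X) (τ : ℝ), 0 ≤ τ ∧ τ ≤ 1 ∧
        |Q y - t| ≤ 2 * b ∧ |Q y' - t| ≤ 2 * b ∧
        ∀ e, T e t = ((1 - τ : ℝ) : ℂ) * e y + (τ : ℂ) * e y') ∧
      (∀ x, ∃ B : Set UnitAddCircle, MeasurableSet B ∧
        (volume : Measure UnitAddCircle).real B ≤ δ ∧
        ∀ s, s ∉ B → ∃ P, D k x P < δ ∧ ∀ e, T e (Q' (Function.update x k s)) = e P) ∧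
      (∀ t t', |t - t'| ≤ b' → ∀ e, ‖T e t - T e t'‖ ≤ δ * ‖e‖) := by
  obtain ⟨δ0, hδ0, hδ0'⟩ := unif_dep Q.continuous hQ (ε := b / 8) (by positivity)
  obtain ⟨m, P, l, hm, hl0, hlc, hld, hlP, hlsum, hlB⟩ :=
    exists_weights k hδ (lt_min hδ hδ0)
  obtain ⟨M, n, y, hM0, hMb, hnx, hyn, hyQ⟩ := exists_lattice hm Q P hb
  -- the range of the lattice
  have hQB : ∀ x, |Q x| ≤ ‖Q‖ := fun x => Q.norm_coe_le_norm x
  have hB00 : 0 ≤ ‖Q‖ := norm_nonneg _
  obtain ⟨B0, hB0⟩ : ∃ B0 : ℝ, B0 = ‖Q‖ := ⟨_, rfl⟩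
  rw [← hB0] at hQB hB00
  obtain ⟨J, hJ⟩ := exists_nat_gt (M * (B0 + b) + 1)
  have hJ0 : (0 : ℤ) ≤ (J : ℤ) := Int.natCast_nonneg J
  let T : C(X, ℂ) → C(ℝ, ℂ) := fun e => ⟨interp J M (fun j => e (y j)), continuous_interp _ _ _⟩
  have hTx : ∀ e t, T e t = interp J M (fun j => e (y j)) t := fun _ _ => rfl
  clear_value T
  let Q' : C(X, ℝ) := ⟨fun x => ∑ i ∈ Finset.range m, (n i : ℝ) / M * l i x,
    continuous_finsetSum _ fun i _ => continuous_const.mul (hlc i)⟩
  have hQ'x : ∀ x, Q' x = ∑ i ∈ Finset.range m, (n i : ℝ) / M * l i x := fun _ => rfl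
  clear_value Q'
  refine ⟨Q', min (b / 2) (δ / ((2 * J + 1) * M)), T, ?_, ?_,
    lt_min (by linarith) (by positivity), min_le_left _ _, ?_, ?_, ?_⟩
  · intro x x' h
    rw [hQ'x, hQ'x]
    exact Finset.sum_congr rfl fun i _ => by rw [hld i x x' h]
  · intro x
    have h1 : Q' x - Q x = ∑ i ∈ Finset.range m, ((n i : ℝ) / M - Q x) * l i x := by
      rw [hQ'x]
      simp_rw [sub_mul]
      rw [Finset.sum_sub_distrib, ← Finset.mul_sum, hlsum, mul_one]
    rw [h1]
    refine (Finset.abs_sum_le_sum_abs _ _).trans ?_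
    calc ∑ i ∈ Finset.range m, |((n i : ℝ) / M - Q x) * l i x|
        ≤ ∑ i ∈ Finset.range m, b / 4 * l i x := by
          refine Finset.sum_le_sum fun i hi => ?_
          rw [abs_mul, abs_of_nonneg (hl0 i x)]
          by_cases h : l i x = 0
          · rw [h]; simp
          · refine mul_le_mul_of_nonneg_right ?_ (hl0 i x)
            have h2 := hδ0' x (P i) (lt_of_lt_of_le (hlP i x h) (min_le_right _ _))
            rw [Real.dist_eq] at h2
            have h3 := hnx i (Finset.mem_range.1 hi)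
            calc |(n i : ℝ) / M - Q x| = |((n i : ℝ) / M - Q (P i)) - (Q x - Q (P i))| := by
                  congr 1; ring
              _ ≤ |(n i : ℝ) / M - Q (P i)| + |Q x - Q (P i)| := abs_sub _ _
              _ ≤ b / 8 + b / 8 := add_le_add h3 h2.le
              _ = b / 4 := by ring
      _ = b / 4 := by rw [← Finset.mul_sum, hlsum, mul_one]
      _ ≤ b / 2 := by linarith
  · rintro t ⟨x, hx⟩
    have ht : |t| ≤ B0 + b := by
      calc |t| = |Q x + (t - Q x)| := by congr 1; ring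
        _ ≤ |Q x| + |t - Q x| := abs_add_le _ _
        _ ≤ B0 + b := add_le_add (hQB x) hx
    have hMt : |M * t| ≤ (J : ℤ) - 1 := by
      rw [abs_mul, abs_of_pos hM0]
      have : M * |t| ≤ M * (B0 + b) := mul_le_mul_of_nonneg_left ht hM0.le
      push_cast
      linarith
    have hfr0 := Int.fract_nonneg (M * t)
    have hfr1 := (Int.fract_lt_one (M * t)).le
    have hflo : (⌊M * t⌋ : ℝ) = M * t - Int.fract (M * t) := (Int.self_sub_fract _).symm
    have hj : ∀ j : ℤ, |(j : ℝ) - M * t| ≤ 1 → |Q (y j) - t| ≤ 2 * b := by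
      intro j hj
      have h1 : |(j : ℝ) / M - t| ≤ 1 / M := by
        have : (j : ℝ) / M - t = (j - M * t) / M := by field_simp
        rw [this, abs_div, abs_of_pos hM0]
        gcongr
      have h2 : |Q x - (j : ℝ) / M| ≤ b + 1 / M := by
        calc |Q x - (j : ℝ) / M| = |(t - (j : ℝ) / M) - (t - Q x)| := by congr 1; ring
          _ ≤ |t - (j : ℝ) / M| + |t - Q x| := abs_sub _ _
          _ ≤ 1 / M + b := by rw [abs_sub_comm t]; exact add_le_add h1 hx
          _ = b + 1 / M := by ring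
      have h3 := hyQ j ⟨x, h2⟩
      calc |Q (y j) - t| = |(Q (y j) - (j : ℝ) / M) + ((j : ℝ) / M - t)| := by congr 1; ring
        _ ≤ |Q (y j) - (j : ℝ) / M| + |(j : ℝ) / M - t| := abs_add_le _ _
        _ ≤ (b + 1 / M) + 1 / M := add_le_add h3 h1
        _ ≤ 2 * b := by linarith
    refine ⟨y ⌊M * t⌋, y (⌊M * t⌋ + 1), Int.fract (M * t), hfr0, hfr1, hj _ ?_, hj _ ?_, ?_⟩
    · rw [hflo, abs_le]; constructor <;> linarith
    · push_cast
      rw [hflo, abs_le]; constructor <;> linarith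
    · intro e
      rw [hTx, interp_mid _ hMt]
      push_cast
      rfl
  · intro x
    obtain ⟨B, hBm, hBv, hB⟩ := hlB x
    refine ⟨B, hBm, hBv, fun s hs => ?_⟩
    obtain ⟨i, him, hi1, hi2⟩ := hB s hs
    refine ⟨P i, ?_, fun e => ?_⟩
    · have h1 := hlP i (Function.update x k s) (by rw [hi1]; exact one_ne_zero)
      have h2 : D k (Function.update x k s) (P i) = D k x (P i) :=
        (D_dep k (P i)).update le_rfl x s
      rw [h2] at h1
      exact lt_of_lt_of_le h1 (min_le_left _ _)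
    · have h1 : Q' (Function.update x k s) = (n i : ℝ) / M := by
        rw [hQ'x, Finset.sum_eq_single i]
        · rw [hi1, mul_one]
        · intro j hj hji
          rw [hi2 j (Finset.mem_range.1 hj) hji, mul_zero]
        · intro h
          exact absurd (Finset.mem_range.2 him) h
      have h2 : |(n i : ℝ)| ≤ J := by
        have h3 := hnx i him
        have h4 : |(n i : ℝ) / M| ≤ B0 + b := by
          calc |(n i : ℝ) / M| = |((n i : ℝ) / M - Q (P i)) + Q (P i)| := by congr 1; ring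
            _ ≤ |(n i : ℝ) / M - Q (P i)| + |Q (P i)| := abs_add_le _ _
            _ ≤ b / 8 + B0 := add_le_add h3 (hQB _)
            _ ≤ B0 + b := by linarith
        rw [abs_div, abs_of_pos hM0, div_le_iff₀ hM0] at h4
        linarith
      have h2' : |n i| ≤ (J : ℤ) := by exact_mod_cast h2
      rw [h1, hTx, interp_node hM0.ne' _ (abs_le.1 h2').1 (abs_le.1 h2').2, hyn i him]
  · intro t t' htt e
    rw [hTx, hTx]
    refine (interp_lip hJ0 hM0.le (fun j => e.norm_coe_le_norm (y j)) t t').trans ?_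
    refine mul_le_mul_of_nonneg_right ?_ (norm_nonneg _)
    have h1 : |t - t'| ≤ δ / ((2 * J + 1) * M) := htt.trans (min_le_right _ _)
    rw [le_div_iff₀ (by positivity)] at h1
    push_cast
    linarith

end Pool.Agent.Helper53_Dir
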