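import Pool.Agent.Helper53_Dir.Cond

set_option autoImplicit false

open MeasureTheory Topology
open scoped ComplexConjugate

namespace Pool.Agent.Helper53_Dir

/-- The star subalgebra of functions of finitely many coordinates. -/
noncomputable def finDep : StarSubalgebra ℂ C(X, ℂ) where
  carrier := {f | ∃ k, Dep k f}
  mul_mem' := by
    rintro f g ⟨k, hf⟩ ⟨l, hg⟩
    refine ⟨max k l, fun x y h => ?_⟩
    rw [ContinuousMap.mul_apply, ContinuousMap.mul_apply, (hf.mono (le_max_left k l)) x y h,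
      (hg.mono (le_max_right k l)) x y h]
  add_mem' := by
    rintro f g ⟨k, hf⟩ ⟨l, hg⟩
    refine ⟨max k l, fun x y h => ?_⟩
    rw [ContinuousMap.add_apply, ContinuousMap.add_apply, (hf.mono (le_max_left k l)) x y h,
      (hg.mono (le_max_right k l)) x y h]
  algebraMap_mem' := fun c => ⟨0, fun x y _ => rfl⟩
  star_mem' := by
    rintro f ⟨k, hf⟩
    exact ⟨k, fun x y h => by rw [ContinuousMap.star_apply, ContinuousMap.star_apply, hf x y h]⟩

theorem exists_dep_approx (e : C(X, ℂ)) {ε : ℝ} (hε : 0 < ε) :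
    ∃ N, ∃ e' : C(X, ℂ), Dep N e' ∧ ∀ x, ‖e x - e' x‖ ≤ ε := by
  have hsep : finDep.SeparatesPoints := by
    intro x y hxy
    obtain ⟨i, hi⟩ := Function.ne_iff.1 hxy
    refine ⟨_, ⟨zn i 1, ⟨i + 1, dep_zn i 1⟩, rfl⟩, ?_⟩
    simp only [zn_apply, fourier_one]
    intro h
    exact hi (AddCircle.injective_toCircle one_ne_zero (Subtype.coe_injective h))
  have h := ContinuousMap.starSubalgebra_topologicalClosure_eq_top_of_separatesPoints _ hsep
  have h1 : e ∈ finDep.topologicalClosure := by rw [h]; trivial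
  have h2 : e ∈ closure (finDep : Set C(X, ℂ)) := h1
  obtain ⟨e', ⟨N, hN⟩, h3⟩ := Metric.mem_closure_iff.1 h2 ε hε
  refine ⟨N, e', hN, fun x => ?_⟩
  rw [← dist_eq_norm]
  exact (ContinuousMap.dist_apply_le_dist x).trans h3.le

/-- Inverse in `A` of an element with positive real part. -/
theorem exists_inv {F : C(X, ℂ)} (hF : F ∈ A) {c : ℝ} (hc : 0 < c) (h : ∀ x, c ≤ (F x).re) :
    ∃ G ∈ A, ∀ x, G x * F x = 1 := by
  haveI : CompleteSpace A := isClosed_A.completeSpace_coe
  set M : ℝ := ‖F‖ with hM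
  have hcM : c ≤ M := by
    have x0 : X := 0
    calc c ≤ (F x0).re := h x0
      _ ≤ ‖F x0‖ := Complex.re_le_norm _
      _ ≤ M := F.norm_coe_le_norm x0
  have hM0 : 0 < M := lt_of_lt_of_le hc hcM
  set η : ℝ := c / M ^ 2 with hη
  have hη0 : 0 < η := by positivity
  set q : ℝ := 1 - c ^ 2 / M ^ 2 with hq
  have hq1 : q < 1 := by
    have : 0 < c ^ 2 / M ^ 2 := by positivity
    linarith
  have hq0 : 0 ≤ q := by
    have : c ^ 2 / M ^ 2 ≤ 1 := by
      rw [div_le_one (by positivity)]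
      exact pow_le_pow_left₀ hc.le hcM 2
    linarith
  let t : A := ⟨1 - (η : ℂ) • F, A.sub_mem A.one_mem (A.smul_mem hF _)⟩
  have ht : ‖t‖ < 1 := by
    have h1 : ‖(1 - (η : ℂ) • F : C(X, ℂ))‖ ≤ Real.sqrt q := by
      rw [ContinuousMap.norm_le _ (Real.sqrt_nonneg _)]
      intro x
      refine Real.le_sqrt_of_sq_le ?_
      have h2 : ‖(1 - (η : ℂ) • F : C(X, ℂ)) x‖ ^ 2 =
          1 - 2 * η * (F x).re + η ^ 2 * ‖F x‖ ^ 2 := by
        rw [ContinuousMap.sub_apply, ContinuousMap.smul_apply, ContinuousMap.one_apply,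
          smul_eq_mul, Complex.sq_norm, Complex.sq_norm, Complex.normSq_apply,
          Complex.normSq_apply]
        simp only [Complex.sub_re, Complex.one_re, Complex.mul_re, Complex.ofReal_re,
          Complex.ofReal_im, Complex.sub_im, Complex.one_im, Complex.mul_im]
        ring
      rw [h2]
      have h3 : ‖F x‖ ^ 2 ≤ M ^ 2 := pow_le_pow_left₀ (norm_nonneg _) (F.norm_coe_le_norm x) 2
      have h4 := h x
      have h5 : η ^ 2 * ‖F x‖ ^ 2 ≤ η ^ 2 * M ^ 2 := by
        exact mul_le_mul_of_nonneg_left h3 (by positivity)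
      have h6 : 2 * η * c ≤ 2 * η * (F x).re := mul_le_mul_of_nonneg_left h4 (by positivity)
      have h7 : 1 - 2 * η * c + η ^ 2 * M ^ 2 = q := by
        rw [hη, hq]
        field_simp
        ring
      linarith
    refine lt_of_le_of_lt h1 ?_
    rw [Real.sqrt_lt' one_pos]
    linarith
  let U := Units.oneSub t ht
  have hU : (U : A) = (⟨(η : ℂ) • F, A.smul_mem hF _⟩ : A) := by
    show (1 - t : A) = _
    apply Subtype.ext
    show (1 : C(X, ℂ)) - (1 - (η : ℂ) • F) = (η : ℂ) • F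
    abel
  refine ⟨(η : ℂ) • ((↑(U⁻¹) : A) : C(X, ℂ)), A.smul_mem (Subtype.mem _) _, fun x => ?_⟩
  have h8 : (↑(U⁻¹) : A) * (U : A) = 1 := U.inv_mul
  rw [hU] at h8
  have h9 : ((↑(U⁻¹) : A) : C(X, ℂ)) * ((η : ℂ) • F) = 1 := congrArg Subtype.val h8
  have h10 := congrArg (fun g : C(X, ℂ) => g x) h9
  simp only [ContinuousMap.mul_apply, ContinuousMap.smul_apply, ContinuousMap.one_apply,
    smul_eq_mul] at h10
  rw [ContinuousMap.smul_apply, smul_eq_mul]
  linear_combination h10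

theorem moebius_re {f : ℂ} {e B : ℝ} (he : 0 < e) (hB : 0 ≤ B) (h1 : e * B ≤ 1 / 2)
    (h2 : -B ≤ f.re) (h3 : f.re ≤ B) {G : ℂ} (hG : G * (1 + e * f) = 1) :
    f.re - 2 * e * B ^ 2 ≤ (G * f).re ∧ ‖G * f‖ ≤ 3 / e := by
  have hre : (1 / 2 : ℝ) ≤ 1 + e * f.re := by nlinarith
  have hF : (1 + e * f : ℂ) ≠ 0 := right_ne_zero_of_mul_eq_one hG
  have hG' : G = (1 + e * f)⁻¹ := eq_inv_of_mul_eq_one_left hG
  constructor
  · have hD : Complex.normSq (1 + e * f) = (1 + e * f.re) ^ 2 + e ^ 2 * f.im ^ 2 := by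
      rw [Complex.normSq_apply]
      simp only [Complex.add_re, Complex.one_re, Complex.mul_re, Complex.ofReal_re,
        Complex.ofReal_im, Complex.add_im, Complex.one_im, Complex.mul_im]
      ring
    have hD0 : 0 < Complex.normSq (1 + e * f) := Complex.normSq_pos.2 hF
    have hre2 : (G * f).re = (f.re + e * (f.re ^ 2 + f.im ^ 2)) / Complex.normSq (1 + e * f) := by
      rw [hG', Complex.mul_re, Complex.inv_re, Complex.inv_im]
      simp only [Complex.add_re, Complex.one_re, Complex.mul_re, Complex.ofReal_re,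
        Complex.ofReal_im, Complex.add_im, Complex.one_im, Complex.mul_im]
      ring
    rw [hre2, le_div_iff₀ hD0, hD]
    set s := f.re
    set t := f.im
    have hs2 : s ^ 2 ≤ B ^ 2 := by nlinarith
    have k1 : 0 ≤ e * t ^ 2 * (1 - e * s) := by
      have : 0 ≤ 1 - e * s := by nlinarith
      positivity
    have k2 : 0 ≤ (1 + e * s) * (2 * e * B ^ 2 * (1 + e * s) - e * s ^ 2) := by
      have a1 : 0 ≤ 1 + e * s := by linarith
      have a2 : e * B ^ 2 ≤ 2 * e * B ^ 2 * (1 + e * s) := by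
        have : 0 ≤ e * B ^ 2 := by positivity
        nlinarith
      have a3 : e * s ^ 2 ≤ e * B ^ 2 := mul_le_mul_of_nonneg_left hs2 he.le
      exact mul_nonneg a1 (by linarith)
    have k3 : 0 ≤ 2 * e * B ^ 2 * (e ^ 2 * t ^ 2) := by positivity
    nlinarith
  · have h5 : (e : ℂ) ≠ 0 := by exact_mod_cast he.ne'
    have h4 : G * f = (1 - G) / e := by
      field_simp
      linear_combination hG
    have h6 : ‖G‖ ≤ 2 := by
      rw [hG', norm_inv]
      have : (1 / 2 : ℝ) ≤ ‖(1 + e * f : ℂ)‖ := by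
        refine le_trans ?_ (Complex.re_le_norm _)
        simpa using hre
      calc ‖(1 + e * f : ℂ)‖⁻¹ ≤ (1 / 2 : ℝ)⁻¹ := inv_anti₀ (by norm_num) this
        _ = 2 := by norm_num
    rw [h4, norm_div, Complex.norm_real, Real.norm_of_nonneg he.le]
    gcongr
    calc ‖1 - G‖ ≤ ‖(1 : ℂ)‖ + ‖G‖ := norm_sub_le _ _
      _ ≤ 3 := by rw [norm_one]; linarith

/-- The pointwise estimate. -/
theorem point_est {S r h' : ℂ} {R B C δ : ℝ} (hR : 0 < R) (hB : 0 ≤ B) (hC : 0 ≤ C)
    (hRB : 2 * B ≤ R) (hδ : 0 < δ) (hRC : (B + C) ^ 2 ≤ R * δ) (hS : ‖S‖ ≤ R) (hr : ‖r‖ ≤ B)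
    (hh : ‖h'‖ ≤ C) (hre : (conj S * r).re / R - δ / 2 ≤ h'.re) :
    ‖S + r - S / R * h'‖ ≤ R + δ := by
  have hRδ : 0 ≤ R + δ := by linarith
  refine abs_le_of_sq_le_sq' ?_ hRδ |>.2
  set a : ℝ := ‖S‖ ^ 2 with ha
  set P : ℝ := (conj S * r).re with hP
  have ha0 : 0 ≤ a := by positivity
  have ha1 : a ≤ R ^ 2 := pow_le_pow_left₀ (norm_nonneg _) hS 2
  have hPB : P ≤ R * B := by
    calc P ≤ ‖conj S * r‖ := Complex.re_le_norm _
      _ = ‖S‖ * ‖r‖ := by rw [norm_mul, RCLike.norm_conj]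
      _ ≤ R * B := mul_le_mul hS hr (norm_nonneg _) hR.le
  have hh2 : ‖r - S / R * h'‖ ≤ B + C := by
    calc ‖r - S / R * h'‖ ≤ ‖r‖ + ‖S / R * h'‖ := norm_sub_le _ _
      _ ≤ B + C := by
        refine add_le_add hr ?_
        rw [norm_mul, norm_div, Complex.norm_real, Real.norm_of_nonneg hR.le]
        calc ‖S‖ / R * ‖h'‖ ≤ 1 * C := by
              refine mul_le_mul ?_ hh (norm_nonneg _) zero_le_one
              rw [div_le_one hR]; exact hS
          _ = C := one_mul C
  have hexp : ‖S + r - S / R * h'‖ ^ 2 = a + 2 * (P - a / R * h'.re) + ‖r - S / R * h'‖ ^ 2 := by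
    have e1 : S + r - S / R * h' = S + (r - S / R * h') := by ring
    have e2 : (conj S * (r - S / R * h')).re = P - a / R * h'.re := by
      have e3 : conj S * (r - S / R * h') = conj S * r - ((a / R : ℝ) : ℂ) * h' := by
        have e4 : conj S * S = ((a : ℝ) : ℂ) := by
          rw [ha, mul_comm, Complex.mul_conj, Complex.normSq_eq_norm_sq]
        push_cast
        linear_combination (-(h' / R)) * e4
      rw [e3, Complex.sub_re, Complex.re_ofReal_mul, hP]
    rw [e1, ← e2, ha]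
    rw [Complex.sq_norm, Complex.sq_norm, Complex.sq_norm, Complex.normSq_add]
    have : (S * conj (r - S / R * h')).re = (conj S * (r - S / R * h')).re := by
      simp only [Complex.mul_re, Complex.conj_re, Complex.conj_im]
      ring
    rw [this]
    ring
  rw [hexp]
  have h1 : ‖r - S / R * h'‖ ^ 2 ≤ R * δ :=
    (pow_le_pow_left₀ (norm_nonneg _) hh2 2).trans hRC
  have h2 : a / R * (P / R - δ / 2) ≤ a / R * h'.re :=
    mul_le_mul_of_nonneg_left hre (by positivity)
  have h3 : P - a / R * h'.re ≤ P * (1 - a / R ^ 2) + a / R * (δ / 2) := by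
    have : a / R * (P / R - δ / 2) = P * (a / R ^ 2) - a / R * (δ / 2) := by
      field_simp
    linarith
  have h4 : 0 ≤ 1 - a / R ^ 2 := by
    have : a / R ^ 2 ≤ 1 := by
      rw [div_le_one (by positivity)]; exact ha1
    linarith
  have h5 : P * (1 - a / R ^ 2) ≤ R * B * (1 - a / R ^ 2) := mul_le_mul_of_nonneg_right hPB h4
  have h6 : R * B * (1 - a / R ^ 2) ≤ R * (R / 2) * (1 - a / R ^ 2) := by
    refine mul_le_mul_of_nonneg_right ?_ h4
    exact mul_le_mul_of_nonneg_left (by linarith) hR.le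
  have h7 : R * (R / 2) * (1 - a / R ^ 2) = (R ^ 2 - a) / 2 := by
    field_simp
  have h8 : a / R * (δ / 2) ≤ R * (δ / 2) := by
    refine mul_le_mul_of_nonneg_right ?_ (by linarith)
    rw [div_le_iff₀ hR]
    nlinarith
  nlinarith

/-- The one step lemma. -/
theorem one_step {δ B : ℝ} (hδ : 0 < δ) (hB : 0 ≤ B) : ∃ R0 : ℝ, 0 < R0 ∧ ∀ R ≥ R0, ∀ k : ℕ,
    ∀ S r : C(X, ℂ), Dep k S → Dep (k + 1) r → (∀ x, ‖S x‖ ≤ R) → (∀ x, ‖r x‖ ≤ B) →
    Ek k r = 0 → ∃ h : C(X, ℂ), Dep (k + 1) h ∧ (∀ u : C(X, ℂ), Dep k u → u * h ∈ A) ∧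
    ∀ x, ‖S x + r x - h x‖ ≤ R + δ := by
  set e : ℝ := min (1 / (2 * (B + 1))) (δ / (8 * (B + 1) ^ 2)) with he
  have he0 : 0 < e := by
    refine lt_min ?_ ?_ <;> positivity
  have he1 : e * (B + 1) ≤ 1 / 2 := by
    calc e * (B + 1) ≤ 1 / (2 * (B + 1)) * (B + 1) :=
          mul_le_mul_of_nonneg_right (min_le_left _ _) (by linarith)
      _ = 1 / 2 := by field_simp
  have he2 : 2 * e * (B + 1) ^ 2 ≤ δ / 4 := by
    calc 2 * e * (B + 1) ^ 2 = e * (2 * (B + 1) ^ 2) := by ring
      _ ≤ δ / (8 * (B + 1) ^ 2) * (2 * (B + 1) ^ 2) :=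
          mul_le_mul_of_nonneg_right (min_le_right _ _) (by positivity)
      _ = δ / 4 := by field_simp; ring
  set C : ℝ := 3 / e with hC
  have hC0 : 0 ≤ C := by positivity
  refine ⟨max 1 (max (2 * B) ((B + C) ^ 2 / δ)), lt_max_of_lt_left one_pos, ?_⟩
  intro R hR k S r hS hr hSR hrB hEr
  have hR1 : 1 ≤ R := (le_max_left _ _).trans hR
  have hR2 : 2 * B ≤ R := ((le_max_left _ _).trans (le_max_right _ _)).trans hR
  have hR3 : (B + C) ^ 2 ≤ R * δ := by
    have : (B + C) ^ 2 / δ ≤ R := ((le_max_right _ _).trans (le_max_right _ _)).trans hR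
    rwa [div_le_iff₀ hδ] at this
  have hR0 : 0 < R := by linarith
  -- the function ψ
  let ψ : C(X, ℂ) := ⟨fun x => (((conj (S x) * r x).re / R : ℝ) : ℂ), by
    refine Complex.continuous_ofReal.comp (Continuous.div_const ?_ _)
    exact Complex.continuous_re.comp
      ((Complex.continuous_conj.comp S.continuous).mul r.continuous)⟩
  have hψ : ∀ x, ψ x = (((conj (S x) * r x).re / R : ℝ) : ℂ) := fun _ => rfl
  have hψd : Dep (k + 1) ψ := by
    intro x y h
    rw [hψ, hψ, (hS.mono (Nat.le_succ k)) x y h, hr x y h]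
  have hEψ : Ek k ψ = 0 := by
    ext x
    rw [Ek_apply, ContinuousMap.zero_apply]
    have h1 : ∀ s : UnitAddCircle, ψ (Function.update x k s) =
        (((conj (S x) * r (Function.update x k s)).re / R : ℝ) : ℂ) := by
      intro s
      rw [hψ, hS.update le_rfl]
    simp_rw [h1]
    have hc : Continuous fun s : UnitAddCircle => conj (S x) * r (Function.update x k s) :=
      continuous_const.mul (cont_upd_fun k r x)
    have h2 : ∫ s : UnitAddCircle, (conj (S x) * r (Function.update x k s)).re / R = 0 := by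
      rw [integral_div]
      have h3 : ∫ s : UnitAddCircle, (conj (S x) * r (Function.update x k s)).re =
          (∫ s : UnitAddCircle, conj (S x) * r (Function.update x k s)).re :=
        integral_re (intble _ hc)
      rw [h3, integral_const_mul]
      have h4 : ∫ s : UnitAddCircle, r (Function.update x k s) = 0 := by
        rw [← Ek_apply, hEr]; rfl
      rw [h4]
      simp
    have h5 : ∫ s : UnitAddCircle,
        (((conj (S x) * r (Function.update x k s)).re / R : ℝ) : ℂ) =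
        ((∫ s : UnitAddCircle, (conj (S x) * r (Function.update x k s)).re / R : ℝ) : ℂ) :=
      integral_ofReal
    rw [h5, h2]
    simp
  have hψB : ∀ x, |(conj (S x) * r x).re / R| ≤ B := by
    intro x
    rw [abs_div, abs_of_pos hR0, div_le_iff₀ hR0]
    calc |(conj (S x) * r x).re| ≤ ‖conj (S x) * r x‖ := Complex.abs_re_le_norm _
      _ = ‖S x‖ * ‖r x‖ := by rw [norm_mul, RCLike.norm_conj]
      _ ≤ R * B := mul_le_mul (hSR x) (hrB x) (norm_nonneg _) hR0.le
      _ = B * R := mul_comm _ _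
  set δ₁ : ℝ := min 1 (δ / 4) with hδ₁
  have hδ₁0 : 0 < δ₁ := lt_min one_pos (by linarith)
  obtain ⟨g, hg, g', hg', hgg⟩ := cond_dirichlet hψd hδ₁0
  set f : C(X, ℂ) := g + g' with hf
  have hfN : f ∈ Nk k := add_mem hg hg'
  have hfre : ∀ x, |(f x).re - (conj (S x) * r x).re / R| ≤ δ₁ := by
    intro x
    have h1 := hgg x
    have h2 := (Complex.abs_re_le_norm _).trans h1
    rw [hEψ] at h2
    have h3 : (ψ x - (0 : C(X, ℂ)) x - g x - conj (g' x)).re =
        (conj (S x) * r x).re / R - (f x).re := by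
      rw [hψ, hf]
      simp only [Complex.sub_re, Complex.ofReal_re, Complex.conj_re, ContinuousMap.zero_apply,
        Complex.zero_re, ContinuousMap.add_apply, Complex.add_re]
      ring
    rw [h3, abs_sub_comm] at h2
    exact h2
  have hflo : ∀ x, -(B + 1) ≤ (f x).re := by
    intro x
    have h1 := (abs_le.1 (hfre x)).1
    have h2 := (abs_le.1 (hψB x)).1
    have h3 : δ₁ ≤ 1 := min_le_left _ _
    linarith
  have hfhi : ∀ x, (f x).re ≤ B + 1 := by
    intro x
    have h1 := (abs_le.1 (hfre x)).2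
    have h2 := (abs_le.1 (hψB x)).2
    have h3 : δ₁ ≤ 1 := min_le_left _ _
    linarith
  -- the denominator
  set F : C(X, ℂ) := 1 + (e : ℂ) • f with hF
  have hFA : F ∈ A := A.add_mem A.one_mem (A.smul_mem (mem_A_of_Nk hfN) _)
  have hFx : ∀ x, F x = 1 + e * f x := fun x => rfl
  have hFre : ∀ x, (1 / 2 : ℝ) ≤ (F x).re := by
    intro x
    rw [hFx]
    simp only [Complex.add_re, Complex.one_re, Complex.re_ofReal_mul]
    have := hflo x
    nlinarith
  obtain ⟨G, hG, hGF⟩ := exists_inv hFA (by norm_num : (0 : ℝ) < 1 / 2) hFre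
  have hmo := fun x => moebius_re (f := f x) he0 (by linarith : (0 : ℝ) ≤ B + 1) he1 (hflo x)
    (hfhi x) (G := G x) (by rw [← hFx]; exact hGF x)
  have hGdep : Dep (k + 1) G := by
    intro x y h
    have h1 := dep_of_mem_Nk hfN x y h
    have h2 : F x = F y := by rw [hFx, hFx, h1]
    have h3 : F y ≠ 0 := right_ne_zero_of_mul_eq_one (hGF y)
    have h4 := hGF x
    rw [h2] at h4
    exact mul_right_cancel₀ h3 (h4.trans (hGF y).symm)
  refine ⟨((R : ℂ)⁻¹ • (S * f)) * G, ?_, ?_, ?_⟩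
  · intro x y h
    simp only [ContinuousMap.mul_apply, ContinuousMap.smul_apply,
      (hS.mono (Nat.le_succ k)) x y h, dep_of_mem_Nk hfN x y h, hGdep x y h]
  · intro u hu
    rw [← mul_assoc, mul_smul_comm, ← mul_assoc]
    refine A.mul_mem (A.smul_mem ?_ _) hG
    refine mem_A_of_Nk (k := k) (mul_mem_Nk ?_ hfN)
    intro x y h
    rw [ContinuousMap.mul_apply, ContinuousMap.mul_apply, hu x y h, hS x y h]
  · intro x
    have h1 := point_est (S := S x) (r := r x) (h' := G x * f x) hR0 hB hC0 hR2 hδ hR3 (hSR x)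
      (hrB x) (hmo x).2 (by
        have h2 := (hmo x).1
        have h3 := (abs_le.1 (hfre x)).1
        have h4 : δ₁ ≤ δ / 4 := min_le_right _ _
        linarith)
    have h2 : (((R : ℂ)⁻¹ • (S * f)) * G) x = S x / R * (G x * f x) := by
      simp only [ContinuousMap.mul_apply, ContinuousMap.smul_apply, smul_eq_mul]
      ring
    rw [h2]
    exact h1

/-- `A` is a Dirichlet algebra on the torus. -/
theorem dirichlet_X_dep (k : ℕ) : ∀ w : C(X, ℂ), Dep k w → ∀ ε : ℝ, 0 < ε →
    ∃ f ∈ A, ∀ x, |(w x).re - (f x).re| ≤ ε := by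
  induction k with
  | zero =>
    intro w hw ε hε
    refine ⟨algebraMap ℂ C(X, ℂ) (w 0), A.algebraMap_mem _, fun x => ?_⟩
    rw [algMap_apply, hw x 0 (fun i hi => absurd hi (Nat.not_lt_zero i))]
    simpa using hε.le
  | succ k ih =>
    intro w hw ε hε
    obtain ⟨f, hf, f', hf', h⟩ := cond_dirichlet hw (half_pos hε)
    obtain ⟨g, hg, h'⟩ := ih (Ek k w) (Ek_dep hw) (ε / 2) (half_pos hε)
    refine ⟨f + f' + g, A.add_mem (A.add_mem (mem_A_of_Nk hf) (mem_A_of_Nk hf')) hg,
      fun x => ?_⟩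
    have h1 := (Complex.abs_re_le_norm _).trans (h x)
    have h2 := h' x
    have h3 : (w x).re - ((f + f' + g : C(X, ℂ)) x).re =
        (w x - Ek k w x - f x - conj (f' x)).re + ((Ek k w x).re - (g x).re) := by
      simp only [ContinuousMap.add_apply, Complex.add_re, Complex.sub_re, Complex.conj_re]
      ring
    rw [h3]
    calc _ ≤ |(w x - Ek k w x - f x - conj (f' x)).re| + |(Ek k w x).re - (g x).re| :=
          abs_add_le _ _
      _ ≤ ε / 2 + ε / 2 := add_le_add h1 h2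
      _ = ε := by ring

theorem dirichlet_X (w : C(X, ℂ)) {ε : ℝ} (hε : 0 < ε) :
    ∃ f ∈ A, ∀ x, |(w x).re - (f x).re| ≤ ε := by
  obtain ⟨N, w', hw', h⟩ := exists_dep_approx w (half_pos hε)
  obtain ⟨f, hf, h'⟩ := dirichlet_X_dep N w' hw' (ε / 2) (half_pos hε)
  refine ⟨f, hf, fun x => ?_⟩
  have h1 := (Complex.abs_re_le_norm _).trans (h x)
  have h3 : (w x).re - (f x).re = (w x - w' x).re + ((w' x).re - (f x).re) := by
    simp only [Complex.sub_re]; ring
  rw [h3]
  calc _ ≤ |(w x - w' x).re| + |(w' x).re - (f x).re| := abs_add_le _ _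
    _ ≤ ε / 2 + ε / 2 := add_le_add h1 (h' x)
    _ = ε := by ring

end Pool.Agent.Helper53_Dir
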