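import Pool.Agent.Helper53_Dir.Step

set_option autoImplicit false

open MeasureTheory Topology
open scoped ComplexConjugate

namespace Pool.Agent.Helper53_Dir

/-- distance in the first `k` coordinates -/
noncomputable def D (k : ℕ) (x y : X) : ℝ := ∑ i ∈ Finset.range k, dist (x i) (y i)

theorem continuous_D (k : ℕ) : Continuous fun p : X × X => D k p.1 p.2 := by
  unfold D
  refine continuous_finsetSum _ fun i _ => ?_
  exact ((continuous_apply i).comp continuous_fst).dist ((continuous_apply i).comp continuous_snd)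

theorem continuous_D_left (k : ℕ) (y : X) : Continuous fun x : X => D k x y := by
  unfold D
  refine continuous_finsetSum _ fun i _ => ?_
  exact (continuous_apply i).dist continuous_const

theorem D_nonneg (k : ℕ) (x y : X) : 0 ≤ D k x y := Finset.sum_nonneg fun _ _ => dist_nonneg

theorem D_self (k : ℕ) (x : X) : D k x x = 0 := Finset.sum_eq_zero fun _ _ => dist_self _

theorem D_comm (k : ℕ) (x y : X) : D k x y = D k y x := by
  unfold D; simp_rw [dist_comm]

theorem D_mono {k l : ℕ} (h : k ≤ l) (x y : X) : D k x y ≤ D l x y :=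
  Finset.sum_le_sum_of_subset_of_nonneg (Finset.range_mono h) fun _ _ _ => dist_nonneg

theorem D_dep (k : ℕ) (y : X) : Dep k (fun x => D k x y) := by
  intro x x' h
  refine Finset.sum_congr rfl fun i hi => ?_
  rw [h i (Finset.mem_range.1 hi)]

theorem eq_of_D_eq_zero {k : ℕ} {x y : X} (h : D k x y = 0) : ∀ i, i < k → x i = y i := by
  intro i hi
  have := (Finset.sum_eq_zero_iff_of_nonneg fun i _ => dist_nonneg).1 h i (Finset.mem_range.2 hi)
  exact dist_eq_zero.1 this

theorem unif_dep {E : Type*} [PseudoMetricSpace E] {N : ℕ} {f : X → E} (hf : Continuous f)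
    (hd : Dep N f) {ε : ℝ} (hε : 0 < ε) :
    ∃ δ > 0, ∀ x y, D N x y < δ → dist (f x) (f y) < ε := by
  set K : Set (X × X) := {p | ε ≤ dist (f p.1) (f p.2)} with hK
  have hKc : IsCompact K := (isClosed_le continuous_const
    ((hf.comp continuous_fst).dist (hf.comp continuous_snd))).isCompact
  rcases K.eq_empty_or_nonempty with h | h
  · refine ⟨1, one_pos, fun x y _ => ?_⟩
    by_contra h1
    have : ((x, y) : X × X) ∈ K := not_lt.1 h1
    rw [h] at this
    exact this
  · obtain ⟨p, hp, hmin⟩ := hKc.exists_isMinOn h (continuous_D N).continuousOn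
    refine ⟨D N p.1 p.2, ?_, fun x y hxy => ?_⟩
    · refine lt_of_le_of_ne (D_nonneg _ _ _) fun h0 => ?_
      have h1 := hd p.1 p.2 (eq_of_D_eq_zero h0.symm)
      have h2 : ε ≤ dist (f p.1) (f p.2) := hp
      rw [h1, dist_self] at h2
      linarith
    · by_contra h1
      have h2 : ((x, y) : X × X) ∈ K := not_lt.1 h1
      exact absurd (hmin h2) (not_le.2 hxy)

theorem exists_net (k : ℕ) {δ : ℝ} (hδ : 0 < δ) :
    ∃ (m : ℕ) (P : ℕ → X), ∀ x, ∃ i < m, D k x (P i) < δ := by
  obtain ⟨t, -, ht⟩ := isCompact_univ.elim_nhds_subcover (X := X) (fun p => {x | D k x p < δ})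
    (fun p _ => by
      refine (isOpen_lt ((continuous_D k).comp (Continuous.prodMk_left p))
        continuous_const).mem_nhds ?_
      show D k p p < δ
      rw [D_self]; exact hδ)
  refine ⟨t.card, fun i => if h : i < t.card then (t.equivFin.symm ⟨i, h⟩ : X) else 0,
    fun x => ?_⟩
  obtain ⟨p, hp, hxp⟩ := Set.mem_iUnion₂.1 (ht (Set.mem_univ x))
  refine ⟨t.equivFin ⟨p, hp⟩, (t.equivFin ⟨p, hp⟩).2, ?_⟩
  simp only [Fin.is_lt, dif_pos, Fin.eta, Equiv.symm_apply_apply]
  exact hxp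

/-- hat function -/
noncomputable def hat (u : ℝ) : ℝ := max 0 (1 - |u|)

theorem hat_lip (u v : ℝ) : |hat u - hat v| ≤ |u - v| := by
  unfold hat
  calc |max 0 (1 - |u|) - max 0 (1 - |v|)| ≤ max |(0 : ℝ) - 0| |1 - |u| - (1 - |v|)| :=
        abs_max_sub_max_le_max _ _ _ _
    _ ≤ |u - v| := by
        refine max_le (by simp) ?_
        have : 1 - |u| - (1 - |v|) = |v| - |u| := by ring
        rw [this, abs_sub_comm u v]
        exact abs_abs_sub_abs_le_abs_sub v u

theorem continuous_hat : Continuous hat := by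
  unfold hat
  exact continuous_const.max (continuous_const.sub continuous_abs)

theorem hat_of_one_le {u : ℝ} (h : 1 ≤ |u|) : hat u = 0 := max_eq_left (by linarith)

theorem hat_zero : hat 0 = 1 := by simp [hat]

theorem hat_int {n j : ℤ} (h : n ≠ j) : hat ((n : ℝ) - j) = 0 := by
  refine hat_of_one_le ?_
  have : (1 : ℤ) ≤ |n - j| := Int.one_le_abs (sub_ne_zero.2 h)
  exact_mod_cast this

/-- piecewise linear interpolation on the lattice `ℤ/M` -/
noncomputable def interp (J : ℤ) (M : ℝ) (v : ℤ → ℂ) (t : ℝ) : ℂ :=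
  ∑ j ∈ Finset.Icc (-J) J, (hat (M * t - j) : ℂ) * v j

theorem continuous_interp (J : ℤ) (M : ℝ) (v : ℤ → ℂ) : Continuous (interp J M v) := by
  unfold interp
  refine continuous_finsetSum _ fun j _ => ?_
  refine Continuous.mul (Complex.continuous_ofReal.comp (continuous_hat.comp ?_))
    continuous_const
  exact (continuous_const.mul continuous_id).sub continuous_const

theorem interp_node {J : ℤ} {M : ℝ} (hM : M ≠ 0) (v : ℤ → ℂ) {n : ℤ} (h1 : -J ≤ n) (h2 : n ≤ J) :
    interp J M v (n / M) = v n := by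
  unfold interp
  rw [Finset.sum_eq_single n]
  · rw [mul_div_cancel₀ _ hM, sub_self, hat_zero]; simp
  · intro j _ hj
    rw [mul_div_cancel₀ _ hM, hat_int (Ne.symm hj)]; simp
  · intro h
    exact absurd (Finset.mem_Icc.2 ⟨h1, h2⟩) h

theorem interp_mid {J : ℤ} {M t : ℝ} (v : ℤ → ℂ) (h : |M * t| ≤ J - 1) :
    interp J M v t = (1 - (Int.fract (M * t) : ℝ)) * v ⌊M * t⌋ +
      (Int.fract (M * t) : ℝ) * v (⌊M * t⌋ + 1) := by
  unfold interp
  set u : ℝ := M * t with hu
  have hf0 := Int.fract_nonneg u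
  have hf1 := Int.fract_lt_one u
  have hfl : (⌊u⌋ : ℝ) = u - Int.fract u := (Int.self_sub_fract u).symm
  have hb := abs_le.1 h
  have hJ1 : ((-J : ℤ) : ℝ) ≤ (⌊u⌋ : ℝ) := by
    rw [Int.cast_le, Int.le_floor]; push_cast; linarith [hb.1]
  have hJ2 : ((⌊u⌋ : ℝ)) ≤ ((J - 1 : ℤ) : ℝ) := by
    push_cast
    exact (Int.floor_le u).trans hb.2
  have hJ1' : -J ≤ ⌊u⌋ := by exact_mod_cast hJ1
  have hJ2' : ⌊u⌋ ≤ J - 1 := by exact_mod_cast hJ2
  rw [Finset.sum_eq_add_of_mem ⌊u⌋ (⌊u⌋ + 1) (Finset.mem_Icc.2 ⟨hJ1', by omega⟩)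
    (Finset.mem_Icc.2 ⟨by omega, by omega⟩) (by omega)]
  · have e1 : hat (u - (⌊u⌋ : ℝ)) = 1 - Int.fract u := by
      have : u - (⌊u⌋ : ℝ) = Int.fract u := by rw [hfl]; ring
      rw [this]
      unfold hat
      rw [abs_of_nonneg hf0, max_eq_right (by linarith)]
    have e2 : hat (u - ((⌊u⌋ + 1 : ℤ) : ℝ)) = Int.fract u := by
      have : u - ((⌊u⌋ + 1 : ℤ) : ℝ) = Int.fract u - 1 := by push_cast; rw [hfl]; ring
      rw [this]
      unfold hat
      rw [abs_of_nonpos (by linarith), max_eq_right (by linarith)]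
      ring
    rw [e1, e2]
    push_cast
    ring
  · rintro j - ⟨hj1, hj2⟩
    rw [hat_of_one_le, Complex.ofReal_zero, zero_mul]
    rcases lt_or_gt_of_ne hj1 with h3 | h3
    · have : (j : ℝ) ≤ (⌊u⌋ : ℝ) - 1 := by exact_mod_cast (by omega : j ≤ ⌊u⌋ - 1)
      have h4 := Int.floor_le u
      rw [abs_of_nonneg (by linarith)]
      linarith
    · have : (⌊u⌋ : ℝ) + 2 ≤ (j : ℝ) := by exact_mod_cast (by omega : ⌊u⌋ + 2 ≤ j)
      have h4 := Int.lt_floor_add_one u
      rw [abs_of_nonpos (by linarith)]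
      linarith

theorem interp_lip {J : ℤ} (hJ : 0 ≤ J) {M : ℝ} (hM : 0 ≤ M) {v : ℤ → ℂ} {C : ℝ}
    (hC : ∀ j, ‖v j‖ ≤ C) (t t' : ℝ) :
    ‖interp J M v t - interp J M v t'‖ ≤ (2 * J + 1) * M * |t - t'| * C := by
  unfold interp
  rw [← Finset.sum_sub_distrib]
  refine (norm_sum_le _ _).trans ?_
  have hC0 : 0 ≤ C := (norm_nonneg _).trans (hC 0)
  calc ∑ j ∈ Finset.Icc (-J) J, ‖(hat (M * t - j) : ℂ) * v j - (hat (M * t' - j) : ℂ) * v j‖
      ≤ ∑ j ∈ Finset.Icc (-J) J, M * |t - t'| * C := by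
        refine Finset.sum_le_sum fun j _ => ?_
        rw [← sub_mul, norm_mul]
        refine mul_le_mul ?_ (hC j) (norm_nonneg _) (by positivity)
        rw [← Complex.ofReal_sub, Complex.norm_real, Real.norm_eq_abs]
        refine (hat_lip _ _).trans ?_
        have : M * t - j - (M * t' - j) = M * (t - t') := by ring
        rw [this, abs_mul, abs_of_nonneg hM]
    _ = (2 * J + 1) * M * |t - t'| * C := by
        rw [Finset.sum_const, Int.card_Icc, nsmul_eq_mul]
        have : (((J + 1 - -J).toNat : ℕ) : ℝ) = 2 * J + 1 := by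
          have h1 : (((J + 1 - -J).toNat : ℕ) : ℤ) = 2 * J + 1 := by
            rw [Int.toNat_of_nonneg (by omega)]; ring
          exact_mod_cast h1
        rw [this]; ring

/-- ramp -/
noncomputable def ramp (t : ℝ) : ℝ := max 0 (min 1 t)

theorem continuous_ramp : Continuous ramp := by
  unfold ramp
  exact continuous_const.max (continuous_const.min continuous_id)

theorem ramp_mono {s t : ℝ} (h : s ≤ t) : ramp s ≤ ramp t := by
  unfold ramp
  exact max_le_max le_rfl (min_le_min le_rfl h)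

theorem ramp_of_one_le {t : ℝ} (h : 1 ≤ t) : ramp t = 1 := by
  unfold ramp; rw [min_eq_left h]; simp

theorem ramp_of_nonpos {t : ℝ} (h : t ≤ 0) : ramp t = 0 := by
  unfold ramp; rw [max_eq_left]; exact (min_le_right _ _).trans h

theorem ramp_nonneg (t : ℝ) : 0 ≤ ramp t := le_max_left _ _

theorem ramp_le_one (t : ℝ) : ramp t ≤ 1 := max_le zero_le_one (min_le_left _ _)

/-- the weights -/
noncomputable def lam (σ : ℕ → ℝ) (η a : ℝ) (i : ℕ) : ℝ :=
  ramp ((a - σ i) / η) - ramp ((a - σ (i + 1)) / η)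

theorem lam_nonneg {σ : ℕ → ℝ} {η a : ℝ} (hη : 0 < η) (hσ : Monotone σ) (i : ℕ) :
    0 ≤ lam σ η a i := by
  unfold lam
  have h := hσ (Nat.le_succ i)
  have : ramp ((a - σ (i + 1)) / η) ≤ ramp ((a - σ i) / η) := by
    refine ramp_mono ?_
    gcongr
  linarith

theorem sum_lam {σ : ℕ → ℝ} {η a : ℝ} {m : ℕ} (hη : 0 < η) (h0 : σ 0 = 0) (hm : σ m = 1)
    (ha : η ≤ a) (ha' : a ≤ 1 - η) : ∑ i ∈ Finset.range m, lam σ η a i = 1 := by
  unfold lam
  rw [Finset.sum_range_sub' (fun i => ramp ((a - σ i) / η)) m, h0, hm, sub_zero,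
    ramp_of_one_le (by rwa [one_le_div hη]), ramp_of_nonpos, sub_zero]
  exact div_nonpos_of_nonpos_of_nonneg (by linarith) hη.le

theorem lt_of_lam_ne_zero {σ : ℕ → ℝ} {η a : ℝ} (hσ : Monotone σ) {i : ℕ}
    (h : lam σ η a i ≠ 0) : σ i < σ (i + 1) := by
  refine lt_of_le_of_ne (hσ (Nat.le_succ i)) fun h1 => h ?_
  unfold lam
  rw [h1, sub_self]

theorem lam_good {σ : ℕ → ℝ} {η a : ℝ} {m : ℕ} (hη : 0 < η) (hσ : Monotone σ) (h0 : σ 0 = 0)
    (hm : σ m = 1) (ha : η ≤ a) (ha' : a ≤ 1 - η)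
    (hgood : ∀ j ≤ m, ¬ (σ j < a ∧ a < σ j + η)) :
    ∃ i < m, lam σ η a i = 1 ∧ ∀ j < m, j ≠ i → lam σ η a j = 0 := by
  have h01 : ∀ j ≤ m, ramp ((a - σ j) / η) = 0 ∨ ramp ((a - σ j) / η) = 1 := by
    intro j hj
    by_cases h : σ j < a
    · right
      refine ramp_of_one_le ?_
      rw [one_le_div hη]
      by_contra h1
      exact hgood j hj ⟨h, by linarith⟩
    · left
      exact ramp_of_nonpos (div_nonpos_of_nonpos_of_nonneg (by linarith) hη.le)
  have hl01 : ∀ j < m, lam σ η a j = 0 ∨ lam σ η a j = 1 := by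
    intro j hj
    have hn := lam_nonneg (a := a) hη hσ j
    unfold lam at hn ⊢
    rcases h01 j hj.le with h1 | h1 <;> rcases h01 (j + 1) hj with h2 | h2 <;>
      rw [h1, h2] at hn ⊢
    · left; norm_num
    · norm_num at hn
    · right; norm_num
    · left; norm_num
  have hsum := sum_lam hη h0 hm ha ha'
  obtain ⟨i, hi, hi1⟩ : ∃ i ∈ Finset.range m, lam σ η a i ≠ 0 := by
    by_contra h
    push Not at h
    rw [Finset.sum_eq_zero h] at hsum
    exact zero_ne_one hsum
  have him := Finset.mem_range.1 hi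
  have hi2 : lam σ η a i = 1 := (hl01 i him).resolve_left hi1
  refine ⟨i, him, hi2, fun j hj hji => ?_⟩
  rw [← Finset.add_sum_erase _ _ hi, hi2] at hsum
  have h3 : ∑ x ∈ (Finset.range m).erase i, lam σ η a x = 0 := by linarith
  exact (Finset.sum_eq_zero_iff_of_nonneg fun x _ => lam_nonneg hη hσ x).1 h3 j
    (Finset.mem_erase.2 ⟨hji, Finset.mem_range.2 hj⟩)

theorem dist_coe_le (u c : ℝ) : dist (u : UnitAddCircle) (c : UnitAddCircle) ≤ |u - c| := by
  rw [dist_eq_norm, ← AddCircle.coe_sub, UnitAddCircle.norm_eq]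
  have := round_le (u - c) 0
  simpa using this

theorem vol_ball_le (x : UnitAddCircle) {r : ℝ} (hr : 0 ≤ r) :
    (volume : Measure UnitAddCircle).real (Metric.closedBall x r) ≤ 2 * r := by
  rw [Measure.real, AddCircle.volume_closedBall,
    ENNReal.toReal_ofReal (le_min zero_le_one (by linarith))]
  exact min_le_right _ _

theorem vol_norm (c : ℝ) {l : ℝ} (hl : 0 ≤ l) :
    (volume : Measure UnitAddCircle).real {s | c < ‖s‖ ∧ ‖s‖ < c + l} ≤ 2 * l := by
  have hsub : {s : UnitAddCircle | c < ‖s‖ ∧ ‖s‖ < c + l} ⊆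
      Metric.closedBall ((c + l / 2 : ℝ) : UnitAddCircle) (l / 2) ∪
      Metric.closedBall ((-(c + l / 2) : ℝ) : UnitAddCircle) (l / 2) := by
    intro s hs
    obtain ⟨t, rfl⟩ := QuotientAddGroup.mk_surjective s
    obtain ⟨h1, h2⟩ := hs
    have e : ((t - round t : ℝ) : UnitAddCircle) = (t : UnitAddCircle) := by
      rw [AddCircle.coe_sub]
      have : ((round t : ℝ) : UnitAddCircle) = 0 := by
        have := AddCircle.coe_eq_zero_iff (p := (1 : ℝ)) (x := (round t : ℝ))
        rw [this]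
        exact ⟨round t, by simp⟩
      rw [this, sub_zero]
    have h3 : ‖(t : UnitAddCircle)‖ = |t - round t| := UnitAddCircle.norm_eq
    change c < ‖(t : UnitAddCircle)‖ at h1
    change ‖(t : UnitAddCircle)‖ < c + l at h2
    rw [h3] at h1 h2
    rcases le_total 0 (t - round t) with h | h
    · left
      rw [Metric.mem_closedBall]
      show dist (t : UnitAddCircle) _ ≤ _
      rw [← e]
      refine (dist_coe_le _ _).trans ?_
      rw [abs_of_nonneg h] at h1 h2
      rw [abs_le]; constructor <;> linarith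
    · right
      rw [Metric.mem_closedBall]
      show dist (t : UnitAddCircle) _ ≤ _
      rw [← e]
      refine (dist_coe_le _ _).trans ?_
      rw [abs_of_nonpos h] at h1 h2
      rw [abs_le]; constructor <;> linarith
  refine (measureReal_mono hsub).trans ((measureReal_union_le _ _).trans ?_)
  have h1 := vol_ball_le ((c + l / 2 : ℝ) : UnitAddCircle) (by linarith : (0 : ℝ) ≤ l / 2)
  have h2 := vol_ball_le ((-(c + l / 2) : ℝ) : UnitAddCircle) (by linarith : (0 : ℝ) ≤ l / 2)
  linarith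

end Pool.Agent.Helper53_Dir
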