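import Pool.Agent.Helper53_Dir.Reveal

set_option autoImplicit false

open MeasureTheory Topology
open scoped ComplexConjugate

namespace Pool.Agent.Helper53_Dir

/-- the tolerance at level `k` -/
noncomputable def tol (k : ℕ) : ℝ := 1 / (k + 1)

theorem tol_pos (k : ℕ) : 0 < tol k := by unfold tol; positivity

/-- The data of the revealing map. -/
structure Tower where
  Q : ℕ → C(X, ℝ)
  b : ℕ → ℝ
  T : ℕ → C(X, ℂ) → C(ℝ, ℂ)
  q : C(X, ℝ)
  dep : ∀ k, Dep k (Q k)
  bpos : ∀ k, 0 < b k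
  bhalf : ∀ k, b (k + 1) ≤ b k / 2
  step : ∀ k x, |Q (k + 1) x - Q k x| ≤ b k / 2
  near : ∀ k x, |q x - Q k x| ≤ b k
  conv : ∀ k t, (∃ x, |t - Q k x| ≤ b k) → ∃ (y y' : X) (τ : ℝ), 0 ≤ τ ∧ τ ≤ 1 ∧
    |Q k y - t| ≤ 2 * b k ∧ |Q k y' - t| ≤ 2 * b k ∧
    ∀ e, T k e t = ((1 - τ : ℝ) : ℂ) * e y + (τ : ℂ) * e y'
  read : ∀ k x, ∃ B : Set UnitAddCircle, MeasurableSet B ∧
    (volume : Measure UnitAddCircle).real B ≤ tol k ∧
    ∀ s, s ∉ B → ∃ P, D k x P < tol k ∧ ∀ e, T k e (Q (k + 1) (Function.update x k s)) = e P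
  md : ∀ k t t', |t - t'| ≤ b (k + 1) → ∀ e, ‖T k e t - T k e t'‖ ≤ tol k * ‖e‖

theorem exists_tower : Nonempty Tower := by
  have H : ∀ (k : ℕ) (p : {p : C(X, ℝ) × ℝ // Dep k p.1 ∧ 0 < p.2}),
      ∃ (p' : {p : C(X, ℝ) × ℝ // Dep (k + 1) p.1 ∧ 0 < p.2}) (T : C(X, ℂ) → C(ℝ, ℂ)),
      (∀ x, |p'.1.1 x - p.1.1 x| ≤ p.1.2 / 2) ∧ p'.1.2 ≤ p.1.2 / 2 ∧
      (∀ t, (∃ x, |t - p.1.1 x| ≤ p.1.2) → ∃ (y y' : X) (τ : ℝ), 0 ≤ τ ∧ τ ≤ 1 ∧
        |p.1.1 y - t| ≤ 2 * p.1.2 ∧ |p.1.1 y' - t| ≤ 2 * p.1.2 ∧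
        ∀ e, T e t = ((1 - τ : ℝ) : ℂ) * e y + (τ : ℂ) * e y') ∧
      (∀ x, ∃ B : Set UnitAddCircle, MeasurableSet B ∧
        (volume : Measure UnitAddCircle).real B ≤ tol k ∧
        ∀ s, s ∉ B → ∃ P, D k x P < tol k ∧ ∀ e, T e (p'.1.1 (Function.update x k s)) = e P) ∧
      (∀ t t', |t - t'| ≤ p'.1.2 → ∀ e, ‖T e t - T e t'‖ ≤ tol k * ‖e‖) := by
    rintro k ⟨⟨Q, b⟩, hQ, hb⟩
    obtain ⟨Q', b', T, h1, h2, h3, h4, h5, h6, h7⟩ := reveal_step k Q hQ hb (tol_pos k)
    exact ⟨⟨⟨Q', b'⟩, h1, h3⟩, T, h2, h4, h5, h6, h7⟩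
  choose f T hf using H
  let s : (k : ℕ) → {p : C(X, ℝ) × ℝ // Dep k p.1 ∧ 0 < p.2} := fun k =>
    Nat.rec ⟨((0 : C(X, ℝ)), (1 : ℝ)), fun _ _ _ => rfl, one_pos⟩ (fun k p => f k p) k
  have hs : ∀ k, s (k + 1) = f k (s k) := fun _ => rfl
  have hprop := fun k => hf k (s k)
  simp only [← hs] at hprop
  have hbh : ∀ k j, (s (k + j)).1.2 ≤ (s k).1.2 / 2 ^ j := by
    intro k j
    induction j with
    | zero => simp
    | succ j ih =>
      refine ((hprop (k + j)).2.1).trans ?_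
      rw [pow_succ, ← div_div]
      linarith
  have hdist : ∀ k j, dist ((s (k + j)).1.1) ((s (k + (j + 1))).1.1) ≤ (s k).1.2 / 2 / 2 ^ j := by
    intro k j
    have h1 := (s k).2.2
    rw [ContinuousMap.dist_le (by positivity)]
    intro x
    rw [Real.dist_eq, abs_sub_comm]
    refine ((hprop (k + j)).1 x).trans ?_
    have h2 := hbh k j
    calc (s (k + j)).1.2 / 2 ≤ (s k).1.2 / 2 ^ j / 2 := by linarith
      _ = (s k).1.2 / 2 / 2 ^ j := by ring
  have hc : CauchySeq fun k => (s k).1.1 := by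
    refine cauchySeq_of_le_geometric_two (C := (s 0).1.2) fun n => ?_
    have := hdist 0 n
    rw [Nat.zero_add, Nat.zero_add] at this
    exact this
  obtain ⟨q, hq⟩ := cauchySeq_tendsto_of_complete hc
  refine ⟨⟨fun k => (s k).1.1, fun k => (s k).1.2, fun k => T k (s k), q, fun k => (s k).2.1,
    fun k => (s k).2.2, fun k => (hprop k).2.1, fun k => (hprop k).1, fun k x => ?_, fun k => (hprop k).2.2.1,
    fun k => (hprop k).2.2.2.1, fun k => (hprop k).2.2.2.2⟩⟩
  have h1 : Filter.Tendsto (fun j => (s (k + j)).1.1) Filter.atTop (𝓝 q) := by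
    have := hq.comp (Filter.tendsto_add_atTop_nat k)
    refine this.congr fun j => ?_
    show (s (j + k)).1.1 = (s (k + j)).1.1
    rw [Nat.add_comm]
  have h2 := dist_le_of_le_geometric_two_of_tendsto₀ (C := (s k).1.2)
    (f := fun j => (s (k + j)).1.1) (fun j => hdist k j) h1
  rw [← Real.dist_eq, dist_comm]
  exact (ContinuousMap.dist_apply_le_dist x).trans h2

namespace Tower

variable (W : Tower)

theorem b_le (k : ℕ) : W.b k ≤ W.b 0 / 2 ^ k := by
  induction k with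
  | zero => simp
  | succ k ih =>
    refine (W.bhalf k).trans ?_
    rw [pow_succ, ← div_div]
    linarith

theorem b_anti {k l : ℕ} (h : k ≤ l) : W.b l ≤ W.b k := by
  induction l, h using Nat.le_induction with
  | base => exact le_rfl
  | succ l _ ih =>
    have h1 := W.bhalf l
    have h2 := W.bpos l
    linarith

theorem exists_b_le {ε : ℝ} (hε : 0 < ε) : ∃ k0, ∀ k ≥ k0, W.b k ≤ ε := by
  obtain ⟨n, hn⟩ := exists_pow_lt_of_lt_one (div_pos hε (W.bpos 0)) (one_half_lt_one (α := ℝ))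
  refine ⟨n, fun k hk => (W.b_anti hk).trans ((W.b_le n).trans ?_)⟩
  rw [lt_div_iff₀ (W.bpos 0)] at hn
  rw [div_eq_mul_inv, ← inv_pow, mul_comm]
  rw [one_div] at hn
  exact hn.le

end Tower

theorem exists_tol_le {ε : ℝ} (hε : 0 < ε) : ∃ k0, ∀ k ≥ k0, tol k ≤ ε := by
  obtain ⟨n, hn⟩ := exists_nat_one_div_lt hε
  refine ⟨n, fun k hk => ?_⟩
  refine le_trans ?_ hn.le
  unfold tol
  gcongr

/-- cutoff -/
noncomputable def cut (L : Set ℝ) (η c t : ℝ) : ℝ := ramp (c - Metric.infDist t L / η)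

theorem continuous_cut (L : Set ℝ) (η c : ℝ) : Continuous (cut L η c) := by
  unfold cut
  exact continuous_ramp.comp
    (continuous_const.sub ((Metric.continuous_infDist_pt L).div_const _))

theorem cut_one {L : Set ℝ} {η c t : ℝ} (hη : 0 < η) (h : Metric.infDist t L ≤ (c - 1) * η) :
    cut L η c t = 1 := by
  unfold cut
  refine ramp_of_one_le ?_
  have : Metric.infDist t L / η ≤ c - 1 := by rwa [div_le_iff₀ hη]
  linarith

theorem cut_zero {L : Set ℝ} {η c t : ℝ} (hη : 0 < η) (h : c * η ≤ Metric.infDist t L) :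
    cut L η c t = 0 := by
  unfold cut
  refine ramp_of_nonpos ?_
  have : c ≤ Metric.infDist t L / η := by rwa [le_div_iff₀ hη]
  linarith

theorem ramp_lip (s t : ℝ) : |ramp s - ramp t| ≤ |s - t| := by
  unfold ramp
  calc |max 0 (min 1 s) - max 0 (min 1 t)| ≤ max |(0 : ℝ) - 0| |min 1 s - min 1 t| :=
        abs_max_sub_max_le_max _ _ _ _
    _ ≤ |s - t| := by
        refine max_le (by simp) ?_
        calc |min 1 s - min 1 t| ≤ max |(1 : ℝ) - 1| |s - t| := abs_min_sub_min_le_max _ _ _ _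
          _ ≤ |s - t| := max_le (by simp) le_rfl

theorem infDist_lip (L : Set ℝ) (s t : ℝ) : |Metric.infDist s L - Metric.infDist t L| ≤ |s - t| := by
  have h := (Metric.lipschitz_infDist_pt L).dist_le_mul s t
  rw [Real.dist_eq, Real.dist_eq] at h
  simpa using h

theorem cut_lip {L : Set ℝ} {η c : ℝ} (hη : 0 < η) (s t : ℝ) :
    |cut L η c s - cut L η c t| ≤ |s - t| / η := by
  unfold cut
  refine (ramp_lip _ _).trans ?_
  have : c - Metric.infDist s L / η - (c - Metric.infDist t L / η) =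
      -((Metric.infDist s L - Metric.infDist t L) / η) := by ring
  rw [this, abs_neg, abs_div, abs_of_pos hη]
  exact div_le_div_of_nonneg_right (infDist_lip L s t) hη.le

theorem cut_nonneg (L : Set ℝ) (η c t : ℝ) : 0 ≤ cut L η c t := ramp_nonneg _

theorem cut_le_one (L : Set ℝ) (η c t : ℝ) : cut L η c t ≤ 1 := ramp_le_one _

theorem exists_margin {L K : Set ℝ} (hL : IsCompact L) (hLn : L.Nonempty) (hK : IsClosed K)
    (h : Disjoint L K) : ∃ η > 0, ∀ t ∈ K, 10 * η ≤ Metric.infDist t L := by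
  obtain ⟨δ, hδ, hsub⟩ := hL.exists_thickening_subset_open hK.isOpen_compl
    (Set.subset_compl_iff_disjoint_right.2 h)
  refine ⟨δ / 10, by positivity, fun t ht => ?_⟩
  by_contra h1
  push Not at h1
  have h2 : t ∈ Metric.thickening δ L := by
    rw [Metric.mem_thickening_iff]
    obtain ⟨y, hy, h3⟩ := (Metric.infDist_lt_iff hLn).1
      (by linarith : Metric.infDist t L < δ)
    exact ⟨y, hy, h3⟩
  exact hsub h2 ht

theorem exists_dep_approx' (e : C(X, ℂ)) {ε : ℝ} (hε : 0 < ε) :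
    ∃ N, ∃ e' : C(X, ℂ), Dep N e' ∧ (∀ x, ‖e x - e' x‖ ≤ ε) ∧
      ((∀ x, (e x).im = 0) → ∀ x, (e' x).im = 0) := by
  obtain ⟨N, e', hN, h⟩ := exists_dep_approx e hε
  by_cases hr : ∀ x, (e x).im = 0
  · refine ⟨N, ⟨fun x => ((e' x).re : ℂ),
      Complex.continuous_ofReal.comp (Complex.continuous_re.comp e'.continuous)⟩, ?_, ?_, ?_⟩
    · intro x y hxy
      show ((e' x).re : ℂ) = ((e' y).re : ℂ)
      rw [hN x y hxy]
    · intro x
      show ‖e x - ((e' x).re : ℂ)‖ ≤ ε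
      have h1 : e x = ((e x).re : ℂ) := by
        apply Complex.ext <;> simp [hr x]
      rw [h1, ← Complex.ofReal_sub, Complex.norm_real, Real.norm_eq_abs, ← Complex.sub_re]
      exact (Complex.abs_re_le_norm _).trans (h x)
    · intro _ x
      exact Complex.ofReal_im _
  · exact ⟨N, e', hN, h, fun h' => absurd h' hr⟩

theorem integral_small {g : UnitAddCircle → ℂ} {C w t : ℝ} (hC0 : 0 ≤ C)
    (hw0 : 0 ≤ w)
    (hC : ∀ s, ‖g s‖ ≤ C) {B : Set UnitAddCircle} (hB : MeasurableSet B)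
    (hBt : (volume : Measure UnitAddCircle).real B ≤ t) (h : ∀ s, s ∉ B → ‖g s‖ ≤ w) :
    ‖∫ s, g s‖ ≤ w + C * t := by
  have hi : Integrable (B.indicator fun _ : UnitAddCircle => C)
      (volume : Measure UnitAddCircle) :=
    (integrable_const C).indicator hB
  calc ‖∫ s, g s‖ ≤ ∫ s, (w + B.indicator (fun _ : UnitAddCircle => C) s) := by
        refine norm_integral_le_of_norm_le ((integrable_const w).add hi)
          (Filter.Eventually.of_forall fun s => ?_)
        by_cases hs : s ∈ B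
        · rw [Set.indicator_of_mem hs]
          linarith [hC s]
        · rw [Set.indicator_of_notMem hs, add_zero]
          exact h s hs
    _ = w + C * (volume : Measure UnitAddCircle).real B := by
        rw [integral_add (integrable_const w) hi, integral_indicator hB, integral_const,
          setIntegral_const, vol_univ, smul_eq_mul, smul_eq_mul]
        ring
    _ ≤ w + C * t := by gcongr

end Pool.Agent.Helper53_Dir
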